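import Mathlib

/-!
# Pseudomanifolds given by their facets

A simplicial complex of pure dimension `d` is recorded by the set of its facets, which are finite
sets with `d + 1` elements.
-/

namespace DualGraph

/-- A set `Δ` of finite sets is (the set of facets of) a `d`-dimensional pseudomanifold with
strongly connected vertex stars: there is a facet, every facet has `d + 1` vertices, every ridge
(a `d`-element subset of a facet) lies in exactly two facets, and any two facets that contain a
vertex `x` are joined by a chain of facets containing `x` in which consecutive facets share a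
ridge.  Every triangulated sphere, and more generally every normal pseudomanifold, is of this
kind. -/
structure IsPM {V : Type*} [DecidableEq V] (d : ℕ) (Δ : Set (Finset V)) : Prop where
  nonempty : Δ.Nonempty
  card_facet : ∀ A ∈ Δ, A.card = d + 1
  ridge : ∀ A ∈ Δ, ∀ R : Finset V, R ⊆ A → R.card = d → ∃! B, B ∈ Δ ∧ B ≠ A ∧ R ⊆ B
  connected : ∀ x : V, ∀ A ∈ Δ, ∀ B ∈ Δ, x ∈ A → x ∈ B →
    Relation.ReflTransGen (fun X Y : Finset V => Y ∈ Δ ∧ x ∈ Y ∧ (X ∩ Y).card = d) A B

/-- A set `K` of finite sets is (the set of facets of) a normal `d`-dimensional pseudomanifold: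
there is a facet, every facet has `d + 1` vertices, every ridge lies in exactly two facets, and for
every face `s` (the empty one included) any two facets that contain `s` are joined by a chain of
facets containing `s` in which consecutive facets share a ridge. -/
structure IsNormalPM {V : Type*} [DecidableEq V] (d : ℕ) (K : Set (Finset V)) : Prop where
  nonempty : K.Nonempty
  card_facet : ∀ A ∈ K, A.card = d + 1
  ridge : ∀ A ∈ K, ∀ R : Finset V, R ⊆ A → R.card = d → ∃! B, B ∈ K ∧ B ≠ A ∧ R ⊆ B
  connected : ∀ s : Finset V, ∀ A ∈ K, ∀ B ∈ K, s ⊆ A → s ⊆ B →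
    Relation.ReflTransGen (fun X Y : Finset V => Y ∈ K ∧ s ⊆ Y ∧ (X ∩ Y).card = d) A B

/-- `Δ` is orientable: there is a sign for every ordering of the vertices of every facet, which
changes when two vertices are exchanged, and which changes when one passes from an ordering of a
facet to an ordering of an adjacent facet by replacing one vertex. -/
def Orientable {V : Type*} [DecidableEq V] (d : ℕ) (Δ : Set (Finset V)) : Prop :=
  ∃ o : (Fin (d + 1) → V) → ℤ,
    (∀ v, Function.Injective v → Finset.univ.image v ∈ Δ → o v = 1 ∨ o v = -1) ∧
    (∀ v, Function.Injective v → Finset.univ.image v ∈ Δ → ∀ i j, i ≠ j →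
      o (v ∘ Equiv.swap i j) = - o v) ∧
    (∀ v, Function.Injective v → Finset.univ.image v ∈ Δ → ∀ i x, x ∉ Finset.univ.image v →
      Finset.univ.image (Function.update v i x) ∈ Δ → o (Function.update v i x) = - o v)

/-- `Φ` is an isomorphism of dual graphs: a bijection from the facets of `Δ` to the facets of `Δ'`
such that two facets share a ridge exactly when their images do. -/
structure DualIso {V W : Type*} [DecidableEq V] [DecidableEq W] (d : ℕ) (Δ : Set (Finset V))
    (Δ' : Set (Finset W)) (Φ : Finset V → Finset W) : Prop where
  bij : Set.BijOn Φ Δ Δ'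
  adj : ∀ A ∈ Δ, ∀ B ∈ Δ, (A ∩ B).card = d ↔ (Φ A ∩ Φ B).card = d

end DualGraph
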