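import Pool.Agent.DualGraph.Defs

/-!
# The local correspondence of vertices given by an isomorphism of dual graphs
-/

namespace DualGraph

open Finset

variable {V W : Type*} [DecidableEq V] [DecidableEq W] {d : ℕ} {Δ : Set (Finset V)}
  {Δ' : Set (Finset W)} {Φ : Finset V → Finset W}

theorem inter_eq_erase (hd : ∀ A ∈ Δ, A.card = d + 1) {A B : Finset V} (hA : A ∈ Δ)
    (hAB : (A ∩ B).card = d) {x : V} (hx : x ∈ A) (hxB : x ∉ B) : A ∩ B = A.erase x := by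
  apply eq_of_subset_of_card_le
  · intro y hy
    rw [mem_inter] at hy
    rw [mem_erase]
    refine ⟨?_, hy.1⟩
    rintro rfl
    exact hxB hy.2
  · rw [card_erase_of_mem hx, hd A hA, hAB]
    omega

theorem exists_mem_sdiff (hd : ∀ A ∈ Δ, A.card = d + 1) {A B : Finset V} (hA : A ∈ Δ)
    (hAB : (A ∩ B).card = d) : ∃ x ∈ A, x ∉ B := by
  by_contra h
  push Not at h
  have h1 : A ∩ B = A := inter_eq_left.2 h
  rw [h1, hd A hA] at hAB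
  omega

theorem eq_of_not_mem (hd : ∀ A ∈ Δ, A.card = d + 1) {A B : Finset V} (hA : A ∈ Δ)
    (hAB : (A ∩ B).card = d) {x y : V} (hx : x ∈ A) (hxB : x ∉ B) (hy : y ∈ A) (hyB : y ∉ B) :
    x = y := by
  by_contra hne
  have h1 := inter_eq_erase hd hA hAB hx hxB
  have h2 : y ∈ A ∩ B := by
    rw [h1]; exact mem_erase.2 ⟨fun h => hne h.symm, hy⟩
  exact hyB (mem_inter.1 h2).2

theorem nb_unique (hΔ : IsPM d Δ) {A B C : Finset V} (hA : A ∈ Δ) (hB : B ∈ Δ) (hC : C ∈ Δ)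
    (hAB : (A ∩ B).card = d) (hAC : (A ∩ C).card = d) {x : V} (hx : x ∈ A) (hxB : x ∉ B)
    (hxC : x ∉ C) : B = C := by
  have h1 := inter_eq_erase hΔ.card_facet hA hAB hx hxB
  have h2 := inter_eq_erase hΔ.card_facet hA hAC hx hxC
  obtain ⟨D, -, hD⟩ := hΔ.ridge A hA (A.erase x) (erase_subset _ _)
    (by rw [card_erase_of_mem hx, hΔ.card_facet A hA]; rfl)
  have h3 : B = D := hD B ⟨hB, fun h => hxB (h ▸ hx), by rw [← h1]; exact inter_subset_right⟩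
  have h4 : C = D := hD C ⟨hC, fun h => hxC (h ▸ hx), by rw [← h2]; exact inter_subset_right⟩
  rw [h3, h4]

theorem exists_nb (hΔ : IsPM d Δ) {A : Finset V} (hA : A ∈ Δ) {x : V} (hx : x ∈ A) :
    ∃ B ∈ Δ, (A ∩ B).card = d ∧ x ∉ B := by
  have hc : (A.erase x).card = d := by rw [card_erase_of_mem hx, hΔ.card_facet A hA]; rfl
  obtain ⟨B, ⟨hB, hne, hsub⟩, -⟩ := hΔ.ridge A hA (A.erase x) (erase_subset _ _) hc
  have hxB : x ∉ B := by
    intro hxB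
    apply hne
    symm
    apply eq_of_subset_of_card_le
    · intro y hy
      by_cases hyx : y = x
      · rw [hyx]; exact hxB
      · exact hsub (mem_erase.2 ⟨hyx, hy⟩)
    · rw [hΔ.card_facet A hA, hΔ.card_facet B hB]
  refine ⟨B, hB, ?_, hxB⟩
  have h1 : A ∩ B = A.erase x := by
    ext y
    rw [mem_inter, mem_erase]
    constructor
    · rintro ⟨h1, h2⟩
      exact ⟨fun h => hxB (h ▸ h2), h1⟩
    · rintro ⟨h1, h2⟩
      exact ⟨h2, hsub (mem_erase.2 ⟨h1, h2⟩)⟩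
  rw [h1, hc]

/-- The vertex `u` of `Φ A` corresponds to the vertex `x` of `A`: the facet adjacent to `A` that
misses `x` is mapped to the facet adjacent to `Φ A` that misses `u`. -/
def Opp (d : ℕ) (Δ : Set (Finset V)) (Φ : Finset V → Finset W) (A : Finset V) (x : V) (u : W) :
    Prop :=
  ∃ B ∈ Δ, (A ∩ B).card = d ∧ x ∈ A ∧ x ∉ B ∧ u ∈ Φ A ∧ u ∉ Φ B

theorem DualIso.mem (hΦ : DualIso d Δ Δ' Φ) {A : Finset V} (hA : A ∈ Δ) : Φ A ∈ Δ' :=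
  hΦ.bij.mapsTo hA

theorem Opp.exists (hΔ : IsPM d Δ) (hΔ' : IsPM d Δ') (hΦ : DualIso d Δ Δ' Φ)
    {A : Finset V} (hA : A ∈ Δ) {x : V} (hx : x ∈ A) : ∃ u, Opp d Δ Φ A x u := by
  obtain ⟨B, hB, hAB, hxB⟩ := exists_nb hΔ hA hx
  obtain ⟨u, hu, huB⟩ := exists_mem_sdiff hΔ'.card_facet (hΦ.mem hA) ((hΦ.adj A hA B hB).1 hAB)
  exact ⟨u, B, hB, hAB, hx, hxB, hu, huB⟩

theorem Opp.exists_left (hΔ : IsPM d Δ) (hΔ' : IsPM d Δ') (hΦ : DualIso d Δ Δ' Φ)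
    {A : Finset V} (hA : A ∈ Δ) {u : W} (hu : u ∈ Φ A) : ∃ x, Opp d Δ Φ A x u := by
  obtain ⟨B', hB', hAB', huB'⟩ := exists_nb hΔ' (hΦ.mem hA) hu
  obtain ⟨B, hB, rfl⟩ := hΦ.bij.surjOn hB'
  have hAB := (hΦ.adj A hA B hB).2 hAB'
  obtain ⟨x, hx, hxB⟩ := exists_mem_sdiff hΔ.card_facet hA hAB
  exact ⟨x, B, hB, hAB, hx, hxB, hu, huB'⟩

theorem Opp.unique (hΔ : IsPM d Δ) (hΔ' : IsPM d Δ') (hΦ : DualIso d Δ Δ' Φ)
    {A : Finset V} (hA : A ∈ Δ) {x : V} {u w : W} (hu : Opp d Δ Φ A x u)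
    (hw : Opp d Δ Φ A x w) : u = w := by
  obtain ⟨B, hB, hAB, hx, hxB, h1, h2⟩ := hu
  obtain ⟨C, hC, hAC, -, hxC, h3, h4⟩ := hw
  have := nb_unique hΔ hA hB hC hAB hAC hx hxB hxC
  subst this
  exact eq_of_not_mem hΔ'.card_facet (hΦ.mem hA) ((hΦ.adj A hA B hB).1 hAB) h1 h2 h3 h4

theorem Opp.unique_left (hΔ : IsPM d Δ) (hΔ' : IsPM d Δ') (hΦ : DualIso d Δ Δ' Φ)
    {A : Finset V} (hA : A ∈ Δ) {x y : V} {u : W} (hx : Opp d Δ Φ A x u)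
    (hy : Opp d Δ Φ A y u) : x = y := by
  obtain ⟨B, hB, hAB, h1, h2, hu, huB⟩ := hx
  obtain ⟨C, hC, hAC, h3, h4, -, huC⟩ := hy
  have h5 := nb_unique hΔ' (hΦ.mem hA) (hΦ.mem hB) (hΦ.mem hC) ((hΦ.adj A hA B hB).1 hAB)
    ((hΦ.adj A hA C hC).1 hAC) hu huB huC
  have h6 : B = C := hΦ.bij.injOn hB hC h5
  subst h6
  exact eq_of_not_mem hΔ.card_facet hA hAB h1 h2 h3 h4

theorem Opp.mem_left {A : Finset V} {x : V} {u : W} (h : Opp d Δ Φ A x u) : x ∈ A := by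
  obtain ⟨B, hB, hAB, h1, h2, hu, huB⟩ := h
  exact h1

theorem Opp.mem_right {A : Finset V} {x : V} {u : W} (h : Opp d Δ Φ A x u) : u ∈ Φ A := by
  obtain ⟨B, hB, hAB, h1, h2, hu, huB⟩ := h
  exact hu

/-- In adjacent facets `A` and `B`, the common vertices correspond to the same vertices. -/
def Straight (d : ℕ) (Δ : Set (Finset V)) (Φ : Finset V → Finset W) (A B : Finset V) : Prop :=
  ∀ y ∈ A ∩ B, ∀ u, Opp d Δ Φ A y u → Opp d Δ Φ B y u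

/-- A vertex corresponding to a common vertex of `A` and `B` is a common vertex of `Φ A` and
`Φ B`. -/
theorem Opp.mem_adj (hΔ : IsPM d Δ) (hΔ' : IsPM d Δ') (hΦ : DualIso d Δ Δ' Φ)
    {A B : Finset V} (hA : A ∈ Δ) (hB : B ∈ Δ) (hAB : (A ∩ B).card = d) {y : V} {u : W}
    (hu : Opp d Δ Φ A y u) : y ∈ B ↔ u ∈ Φ B := by
  obtain ⟨x, hx, hxB⟩ := exists_mem_sdiff hΔ.card_facet hA hAB
  obtain ⟨w, hw, hwB⟩ := exists_mem_sdiff hΔ'.card_facet (hΦ.mem hA) ((hΦ.adj A hA B hB).1 hAB)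
  have hxw : Opp d Δ Φ A x w := ⟨B, hB, hAB, hx, hxB, hw, hwB⟩
  constructor
  · intro hyB
    by_contra huB
    have h1 : u = w := eq_of_not_mem hΔ'.card_facet (hΦ.mem hA) ((hΦ.adj A hA B hB).1 hAB)
      hu.mem_right huB hw hwB
    rw [h1] at hu
    have h2 : y = x := Opp.unique_left hΔ hΔ' hΦ hA hu hxw
    exact hxB (h2 ▸ hyB)
  · intro huB
    by_contra hyB
    have h1 : y = x := eq_of_not_mem hΔ.card_facet hA hAB hu.mem_left hyB hx hxB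
    rw [h1] at hu
    have h2 : u = w := Opp.unique hΔ hΔ' hΦ hA hu hxw
    exact hwB (h2 ▸ huB)

/-- If the correspondence is straight at all ridges then the isomorphism of dual graphs is induced
by an isomorphism of complexes. -/
theorem exists_map (hΔ : IsPM d Δ) (hΔ' : IsPM d Δ') (hΦ : DualIso d Δ Δ' Φ)
    (hs : ∀ A ∈ Δ, ∀ B ∈ Δ, (A ∩ B).card = d → Straight d Δ Φ A B) :
    ∃ f : V → W, Set.InjOn f {x | ∃ A ∈ Δ, x ∈ A} ∧ ∀ A ∈ Δ, Φ A = A.image f := by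
  classical
  -- transport along the star of a vertex
  have t1 : ∀ A ∈ Δ, ∀ B ∈ Δ, ∀ x ∈ A, x ∈ B → ∀ u, Opp d Δ Φ A x u → Opp d Δ Φ B x u := by
    intro A hA B hB x hxA hxB u hu
    have hc := hΔ.connected x A hA B hB hxA hxB
    have key : ∀ C, Relation.ReflTransGen (fun X Y : Finset V => Y ∈ Δ ∧ x ∈ Y ∧
        (X ∩ Y).card = d) A C → C ∈ Δ ∧ x ∈ C ∧ Opp d Δ Φ C x u := by
      intro C hC
      induction hC with
      | refl => exact ⟨hA, hxA, hu⟩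
      | tail hbc hcd ih =>
        obtain ⟨h1, h2, h3⟩ := hcd
        exact ⟨h1, h2, hs _ ih.1 _ h1 h3 x (mem_inter.2 ⟨ih.2.1, h2⟩) u ih.2.2⟩
    exact (key B hc).2.2
  -- transport along the star of a vertex of the other complex
  have t2 : ∀ A ∈ Δ, ∀ B ∈ Δ, ∀ u, u ∈ Φ B → ∀ x, Opp d Δ Φ A x u → Opp d Δ Φ B x u := by
    intro A hA B hB u huB x hx
    have hc := hΔ'.connected u (Φ A) (hΦ.mem hA) (Φ B) (hΦ.mem hB) hx.mem_right huB
    have key : ∀ C', Relation.ReflTransGen (fun X Y : Finset W => Y ∈ Δ' ∧ u ∈ Y ∧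
        (X ∩ Y).card = d) (Φ A) C' → ∃ C ∈ Δ, Φ C = C' ∧ Opp d Δ Φ C x u := by
      intro C' hC'
      induction hC' with
      | refl => exact ⟨A, hA, rfl, hx⟩
      | tail hbc hcd ih =>
        obtain ⟨h1, h2, h3⟩ := hcd
        obtain ⟨C, hC, rfl, hCx⟩ := ih
        obtain ⟨D, hD, rfl⟩ := hΦ.bij.surjOn h1
        have h4 := (hΦ.adj C hC D hD).2 h3
        have h5 : x ∈ D := (Opp.mem_adj hΔ hΔ' hΦ hC hD h4 hCx).2 h2
        exact ⟨D, hD, rfl, hs C hC D hD h4 x (mem_inter.2 ⟨hCx.mem_left, h5⟩) u hCx⟩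
    obtain ⟨C, hC, hCB, h1⟩ := key _ hc
    have : C = B := hΦ.bij.injOn hC hB hCB
    rwa [this] at h1
  -- the vertex map
  obtain ⟨A₀, hA₀⟩ := hΔ.nonempty
  have hne : (Φ A₀).Nonempty := by
    rw [← card_pos, hΔ'.card_facet _ (hΦ.mem hA₀)]; omega
  obtain ⟨w₀, -⟩ := hne
  have hf : ∀ x : V, ∃ u : W, ∀ A ∈ Δ, x ∈ A → Opp d Δ Φ A x u := by
    intro x
    by_cases hx : ∃ A ∈ Δ, x ∈ A
    · obtain ⟨A, hA, hxA⟩ := hx
      obtain ⟨u, hu⟩ := Opp.exists hΔ hΔ' hΦ hA hxA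
      exact ⟨u, fun B hB hxB => t1 A hA B hB x hxA hxB u hu⟩
    · push Not at hx
      exact ⟨w₀, fun A hA hxA => absurd hxA (hx A hA)⟩
  choose f hf using hf
  refine ⟨f, ?_, ?_⟩
  · rintro x ⟨A, hA, hxA⟩ y ⟨B, hB, hyB⟩ hxy
    have h1 := hf x A hA hxA
    have h2 := hf y B hB hyB
    rw [← hxy] at h2
    have h3 : Opp d Δ Φ B x (f x) := t2 A hA B hB _ h2.mem_right x h1
    exact Opp.unique_left hΔ hΔ' hΦ hB h3 h2
  · intro A hA
    ext u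
    rw [mem_image]
    constructor
    · intro hu
      obtain ⟨x, hx⟩ := Opp.exists_left hΔ hΔ' hΦ hA hu
      exact ⟨x, hx.mem_left, Opp.unique hΔ hΔ' hΦ hA (hf x A hA hx.mem_left) hx⟩
    · rintro ⟨x, hx, rfl⟩
      exact (hf x A hA hx).mem_right

/-- If the correspondence is not straight at a ridge then at least two vertices of the ridge are
moved. -/
theorem exists_two_moved (hΔ : IsPM d Δ) (hΔ' : IsPM d Δ') (hΦ : DualIso d Δ Δ' Φ)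
    {A B : Finset V} (hA : A ∈ Δ) (hB : B ∈ Δ) (hAB : (A ∩ B).card = d)
    (hs : ¬ Straight d Δ Φ A B) :
    ∃ y ∈ A ∩ B, ∃ z ∈ A ∩ B, y ≠ z ∧ (∃ u, Opp d Δ Φ A y u ∧ ¬ Opp d Δ Φ B y u) ∧
      ∃ u, Opp d Δ Φ A z u ∧ ¬ Opp d Δ Φ B z u := by
  unfold Straight at hs
  push Not at hs
  obtain ⟨y, hy, u, hu, hnu⟩ := hs
  rw [mem_inter] at hy
  have hBA : (B ∩ A).card = d := by rw [inter_comm]; exact hAB
  -- the vertex of `B` that corresponds to `u`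
  have huB : u ∈ Φ B := (Opp.mem_adj hΔ hΔ' hΦ hA hB hAB hu).1 hy.2
  obtain ⟨z, hz⟩ := Opp.exists_left hΔ hΔ' hΦ hB huB
  have hzA : z ∈ A := (Opp.mem_adj hΔ hΔ' hΦ hB hA hBA hz).2 hu.mem_right
  have hyz : y ≠ z := by
    rintro rfl
    exact hnu hz
  refine ⟨y, mem_inter.2 hy, z, mem_inter.2 ⟨hzA, hz.mem_left⟩, hyz, ⟨u, hu, hnu⟩, ?_⟩
  obtain ⟨w, hw⟩ := Opp.exists hΔ hΔ' hΦ hA hzA
  refine ⟨w, hw, ?_⟩
  intro h1
  have h2 : w = u := Opp.unique hΔ hΔ' hΦ hB h1 hz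
  rw [h2] at hw
  exact hyz (Opp.unique_left hΔ hΔ' hΦ hA hu hw)

end DualGraph
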