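import Pool.Agent.DualGraph.Turns
import Pool.Agent.DualGraph.Local

/-!
# The closed walk of facets around a face of codimension two
-/

namespace DualGraph

open Finset

variable {V : Type*} [DecidableEq V] {d : ℕ} {Δ : Set (Finset V)}

/-- Facets with two marked vertices. -/
def Dart (Δ : Set (Finset V)) : Type _ :=
  {p : Finset V × V × V // p.1 ∈ Δ ∧ p.2.1 ∈ p.1 ∧ p.2.2 ∈ p.1 ∧ p.2.1 ≠ p.2.2}

theorem finite_dart (hfin : Δ.Finite) : Finite (Dart Δ) := by
  classical
  let U : Finset V := hfin.toFinset.biUnion id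
  have hU : ∀ A ∈ Δ, ∀ x ∈ A, x ∈ U := by
    intro A hA x hx
    rw [mem_biUnion]
    exact ⟨A, hfin.mem_toFinset.2 hA, hx⟩
  have h1 : ({p : Finset V × V × V | p.1 ∈ Δ ∧ p.2.1 ∈ p.1 ∧ p.2.2 ∈ p.1 ∧ p.2.1 ≠ p.2.2}).Finite := by
    apply Set.Finite.subset (hfin.prod ((U : Finset V).finite_toSet.prod (U : Finset V).finite_toSet))
    rintro ⟨A, x, y⟩ ⟨hA, hx, hy, -⟩
    exact ⟨hA, hU A hA x hx, hU A hA y hy⟩
  exact h1.to_subtype

theorem exists_next (hΔ : IsPM d Δ) (p : Dart Δ) :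
    ∃ q : Dart Δ, (p.1.1 ∩ q.1.1).card = d ∧ p.1.2.1 ∉ q.1.1 ∧ q.1.2.1 = p.1.2.2 ∧
      q.1.2.2 ∉ p.1.1 := by
  obtain ⟨⟨A, x, y⟩, hA, hx, hy, hxy⟩ := p
  obtain ⟨B, hB, hAB, hxB⟩ := exists_nb hΔ hA hx
  obtain ⟨z, hz, hzA⟩ := exists_mem_sdiff hΔ.card_facet hB (by rw [inter_comm]; exact hAB)
  have hyB : y ∈ B := by
    have h1 := inter_eq_erase hΔ.card_facet hA hAB hx hxB
    have h2 : y ∈ A ∩ B := by rw [h1]; exact mem_erase.2 ⟨hxy.symm, hy⟩
    exact (mem_inter.1 h2).2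
  refine ⟨⟨(B, y, z), hB, hyB, hz, ?_⟩, hAB, hxB, rfl, hzA⟩
  show y ≠ z
  rintro rfl
  exact hzA hy

/-- The next dart. -/
noncomputable def next (hΔ : IsPM d Δ) (p : Dart Δ) : Dart Δ := (exists_next hΔ p).choose

theorem next_spec (hΔ : IsPM d Δ) (p : Dart Δ) :
    (p.1.1 ∩ (next hΔ p).1.1).card = d ∧ p.1.2.1 ∉ (next hΔ p).1.1 ∧
      (next hΔ p).1.2.1 = p.1.2.2 ∧ (next hΔ p).1.2.2 ∉ p.1.1 := (exists_next hΔ p).choose_spec

theorem dart_ext {p q : Dart Δ} (h1 : p.1.1 = q.1.1) (h2 : p.1.2.1 = q.1.2.1)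
    (h3 : p.1.2.2 = q.1.2.2) : p = q := Subtype.ext (Prod.ext h1 (Prod.ext h2 h3))

theorem next_injective (hΔ : IsPM d Δ) : Function.Injective (next hΔ) := by
  intro p q hpq
  obtain ⟨a1, a2, a3, a4⟩ := next_spec hΔ p
  obtain ⟨b1, b2, b3, b4⟩ := next_spec hΔ q
  rw [← hpq] at b1 b2 b3 b4
  have h1 : p.1.1 = q.1.1 := nb_unique hΔ (next hΔ p).2.1 p.2.1 q.2.1
    (by rw [inter_comm]; exact a1) (by rw [inter_comm]; exact b1) (next hΔ p).2.2.2.1 a4 b4
  refine dart_ext h1 ?_ ?_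
  · exact eq_of_not_mem hΔ.card_facet p.2.1 a1 p.2.2.1 a2 (by rw [h1]; exact q.2.2.1) b2
  · rw [← a3, b3]

/-- The dart with its two marked vertices exchanged. -/
def rev (p : Dart Δ) : Dart Δ := ⟨(p.1.1, p.1.2.2, p.1.2.1), p.2.1, p.2.2.2.1, p.2.2.1, p.2.2.2.2.symm⟩

theorem next_rev_next (hΔ : IsPM d Δ) (p : Dart Δ) : next hΔ (rev (next hΔ p)) = rev p := by
  obtain ⟨a1, a2, a3, a4⟩ := next_spec hΔ p
  obtain ⟨b1, b2, b3, b4⟩ := next_spec hΔ (rev (next hΔ p))
  have h1 : (next hΔ (rev (next hΔ p))).1.1 = p.1.1 :=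
    nb_unique hΔ (next hΔ p).2.1 (next hΔ (rev (next hΔ p))).2.1 p.2.1 b1
      (by rw [inter_comm]; exact a1) (next hΔ p).2.2.2.1 b2 a4
  refine dart_ext h1 ?_ ?_
  · rw [b3]
    exact a3
  · show _ = p.1.2.1
    have b4' : (next hΔ (rev (next hΔ p))).1.2.2 ∉ (next hΔ p).1.1 := b4
    have b5 : (next hΔ (rev (next hΔ p))).1.2.2 ∈ p.1.1 := by
      rw [← h1]; exact (next hΔ (rev (next hΔ p))).2.2.2.1
    exact eq_of_not_mem hΔ.card_facet p.2.1 a1 b5 b4' p.2.2.1 a2

theorem iterate_ne_rev (hΔ : IsPM d Δ) (k : ℕ) :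
    ∀ p : Dart Δ, (next hΔ)^[k] p ≠ rev p := by
  induction k using Nat.strong_induction_on with
  | _ k ih =>
    intro p hp
    rcases k with _ | _ | k
    · have h1 : p.1.2.1 = p.1.2.2 := by
        have := congrArg (fun q : Dart Δ => q.1.2.1) hp
        exact this
      exact p.2.2.2.2 h1
    · have h1 : (next hΔ p).1.1 = p.1.1 := by
        have := congrArg (fun q : Dart Δ => q.1.1) hp
        exact this
      have h2 := (next_spec hΔ p).2.1
      rw [h1] at h2
      exact h2 p.2.2.1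
    · have h1 : next hΔ ((next hΔ)^[k] (next hΔ p)) = next hΔ (rev (next hΔ p)) := by
        rw [next_rev_next, ← hp, Function.iterate_succ_apply', Function.iterate_succ_apply]
      have h2 := next_injective hΔ h1
      exact ih k (by omega) _ h2

/-- The vertices of the face of codimension two. -/
theorem next_face (hΔ : IsPM d Δ) (p : Dart Δ) :
    ((next hΔ p).1.1.erase (next hΔ p).1.2.1).erase (next hΔ p).1.2.2 =
      (p.1.1.erase p.1.2.1).erase p.1.2.2 := by
  obtain ⟨a1, a2, a3, a4⟩ := next_spec hΔ p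
  have h1 := inter_eq_erase hΔ.card_facet p.2.1 a1 p.2.2.1 a2
  have h2 := inter_eq_erase hΔ.card_facet (next hΔ p).2.1 (by rw [inter_comm]; exact a1)
    (next hΔ p).2.2.2.1 a4
  rw [erase_right_comm, ← h2, ← h1, a3, inter_comm]

theorem iterate_face (hΔ : IsPM d Δ) (p : Dart Δ) (k : ℕ) :
    (((next hΔ)^[k] p).1.1.erase ((next hΔ)^[k] p).1.2.1).erase ((next hΔ)^[k] p).1.2.2 =
      (p.1.1.erase p.1.2.1).erase p.1.2.2 := by
  induction k with
  | zero => rfl
  | succ k ih => rw [Function.iterate_succ_apply', next_face, ih]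

theorem eq_or_eq_rev {p q : Dart Δ} (h1 : p.1.1 = q.1.1)
    (h2 : (p.1.1.erase p.1.2.1).erase p.1.2.2 = (q.1.1.erase q.1.2.1).erase q.1.2.2) :
    p = q ∨ p = rev q := by
  obtain ⟨⟨A, x, y⟩, hA, hx, hy, hxy⟩ := p
  obtain ⟨⟨B, z, w⟩, hB, hz, hw, hzw⟩ := q
  simp only at h1 h2 hx hy hz hw hxy hzw
  subst h1
  have hz' : z = x ∨ z = y := by
    by_contra h
    push Not at h
    have : z ∈ (A.erase x).erase y := mem_erase.2 ⟨h.2, mem_erase.2 ⟨h.1, hz⟩⟩
    rw [h2] at this
    simp at this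
  have hw' : w = x ∨ w = y := by
    by_contra h
    push Not at h
    have : w ∈ (A.erase x).erase y := mem_erase.2 ⟨h.2, mem_erase.2 ⟨h.1, hw⟩⟩
    rw [h2] at this
    simp at this
  rcases hz' with h | h <;> rcases hw' with h' | h'
  · exact absurd (h.trans h'.symm) hzw
  · left
    exact dart_ext rfl h.symm h'.symm
  · right
    exact dart_ext rfl h'.symm h.symm
  · exact absurd (h.trans h'.symm) hzw

/-- The closed walk of facets around a face of codimension two. -/
theorem exists_walk (hΔ : IsPM d Δ) (hfin : Δ.Finite) {A : Finset V} (hA : A ∈ Δ) {x y : V}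
    (hx : x ∈ A) (hy : y ∈ A) (hxy : x ≠ y) :
    ∃ (m : ℕ) (F : ℕ → Finset V) (a b : ℕ → V), Walk Δ m F a b ∧ 3 ≤ m ∧ F 0 = A ∧ a 0 = x ∧
      b 0 = y ∧ ∀ k, a (k + 1) = b k := by
  haveI := finite_dart hfin
  let p : Dart Δ := ⟨(A, x, y), hA, hx, hy, hxy⟩
  let S := next hΔ
  let m := Function.minimalPeriod S p
  have hper : p ∈ Function.periodicPts S := (next_injective hΔ).mem_periodicPts p
  have hm : 0 < m := Function.minimalPeriod_pos_of_mem_periodicPts hper
  have hSm : S^[m] p = p := Function.iterate_minimalPeriod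
  have hSkm : ∀ k, S^[k + m] p = S^[k] p := by
    intro k
    rw [Function.iterate_add_apply, hSm]
  have hspec : ∀ k, _ := fun k => next_spec hΔ (S^[k] p)
  have hsucc : ∀ k, S^[k + 1] p = next hΔ (S^[k] p) := fun k => Function.iterate_succ_apply' S k p
  have hinj : ∀ i < m, ∀ j < m, (S^[i] p).1.1 = (S^[j] p).1.1 → i = j := by
    intro i hi j hj hij
    wlog hle : i ≤ j generalizing i j with hw
    · exact (hw j hj i hi hij.symm (by omega)).symm
    have h1 := eq_or_eq_rev (p := S^[j] p) (q := S^[i] p) hij.symm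
      (by rw [iterate_face hΔ p j, iterate_face hΔ p i])
    rcases h1 with h1 | h1
    · exact ((Function.iterate_eq_iterate_iff_of_lt_minimalPeriod hj hi).1 h1).symm
    · exfalso
      have h2 : S^[j - i] (S^[i] p) = rev (S^[i] p) := by
        rw [← Function.iterate_add_apply, Nat.sub_add_cancel hle, h1]
      exact iterate_ne_rev hΔ _ _ h2
  have hne1 : m ≠ 1 := by
    intro h1
    have h2 := hspec 0
    have h3 : S^[1] p = p := by rw [← h1]; exact hSm
    rw [← hsucc 0] at h2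
    have h4 := h2.2.1
    rw [zero_add, h3] at h4
    exact h4 hx
  have hne2 : m ≠ 2 := by
    intro h1
    have h3 : S^[2] p = p := by rw [← h1]; exact hSm
    have h4 := (hspec 1).2.2.1
    rw [← hsucc 1, show 1 + 1 = 2 by norm_num, h3] at h4
    have h5 := (hspec 0).2.2.2
    rw [← hsucc 0, zero_add, ← h4] at h5
    exact h5 hx
  refine ⟨m, fun k => (S^[k] p).1.1, fun k => (S^[k] p).1.2.1, fun k => (S^[k] p).1.2.2, ?_,
    by omega, rfl, rfl, rfl, ?_⟩
  · constructor
    · intro k; exact (S^[k] p).2.1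
    · intro k; exact (S^[k] p).2.2.1
    · intro k; exact (S^[k] p).2.2.2.1
    · intro k
      show (S^[k + 1] p).1.2.2 ∉ (S^[k] p).1.1
      rw [hsucc k]
      exact (hspec k).2.2.2
    · intro k
      show (S^[k + 1] p).1.1 = insert (S^[k + 1] p).1.2.2 ((S^[k] p).1.1.erase (S^[k] p).1.2.1)
      rw [hsucc k]
      obtain ⟨a1, a2, a3, a4⟩ := hspec k
      rw [← inter_eq_erase hΔ.card_facet (S^[k] p).2.1 a1 (S^[k] p).2.2.1 a2, inter_comm,
        inter_eq_erase hΔ.card_facet (next hΔ (S^[k] p)).2.1 (by rw [inter_comm]; exact a1)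
          (next hΔ (S^[k] p)).2.2.2.1 a4, insert_erase (next hΔ (S^[k] p)).2.2.2.1]
    · intro k; exact (S^[k] p).2.2.2.2
    · intro k; show (S^[k + m] p).1.1 = _; rw [hSkm]
    · intro k; show (S^[k + m] p).1.2.1 = _; rw [hSkm]
    · intro k; show (S^[k + m] p).1.2.2 = _; rw [hSkm]
    · exact hinj
  · intro k
    show (S^[k + 1] p).1.2.1 = (S^[k] p).1.2.2
    rw [hsucc k]
    exact (hspec k).2.2.1

/-- The facets of a closed walk around a face of codimension two share a ridge only when they are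
consecutive. -/
theorem Walk.adjacent_imp {m : ℕ} {F : ℕ → Finset V} {a b : ℕ → V} (h : Walk Δ m F a b)
    (hΔ : IsPM d Δ) (hab : ∀ k, a (k + 1) = b k) (hm : 0 < m) {i j : ℕ}
    (hij : (F i ∩ F j).card = d) :
    F j = F (i + 1) ∨ F j = F (i + m - 1) := by
  have hd := hΔ.card_facet
  have hpiv : ∀ k, pivot F a b k = pivot F a b 0 := by
    intro k
    exact h.pivot_const (Nat.zero_le k) (fun k _ _ => hab k)
  have hτi : pivot F a b i = pivot F a b 0 := hpiv i
  have hτj : pivot F a b j = pivot F a b 0 := hpiv j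
  obtain ⟨z, hz, hzj⟩ := exists_mem_sdiff hd (h.mem i) hij
  have hz' : z = a i ∨ z = b i := by
    by_contra hcon
    push Not at hcon
    have h1 : z ∈ pivot F a b i := mem_erase.2 ⟨hcon.2, mem_erase.2 ⟨hcon.1, hz⟩⟩
    rw [hτi, ← hτj] at h1
    exact hzj (mem_of_mem_erase (mem_of_mem_erase h1))
  rcases hz' with rfl | rfl
  · left
    have h1 : a i ∉ F (i + 1) := by
      rw [h.mem_next]
      push Not
      exact ⟨fun h2 => h.enter_not_mem i (h2 ▸ hz), fun h2 => absurd rfl h2⟩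
    have h2 : (F i ∩ F (i + 1)).card = d := by
      have h3 : F i ∩ F (i + 1) = (F i).erase (a i) := by
        ext x
        rw [mem_inter, mem_erase, h.mem_next]
        constructor
        · rintro ⟨h3, h4 | h4⟩
          · exact absurd (h4 ▸ h3) (h.enter_not_mem i)
          · exact h4
        · rintro ⟨h3, h4⟩
          exact ⟨h4, Or.inr ⟨h3, h4⟩⟩
      rw [h3]; exact h.card_ridge hd i
    exact nb_unique hΔ (h.mem i) (h.mem j) (h.mem (i + 1)) hij h2 hz hzj h1
  · right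
    -- the previous facet
    have hprev : i + m - 1 + 1 = i + m := by omega
    have h0 : F (i + m) = F i := h.perG i
    have hb : b (i + m) = b i := h.pere i
    have h1 : b i ∉ F (i + m - 1) := by
      have := h.enter_not_mem (i + m - 1)
      rwa [hprev, hb] at this
    have h2 : (F i ∩ F (i + m - 1)).card = d := by
      have h3 : F i ∩ F (i + m - 1) = (F (i + m - 1)).erase (a (i + m - 1)) := by
        ext x
        rw [mem_inter, mem_erase, ← h0, ← hprev, h.mem_next]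
        constructor
        · rintro ⟨h3 | h3, h4⟩
          · exact absurd (h3 ▸ h4) (h.enter_not_mem (i + m - 1))
          · exact h3
        · rintro ⟨h3, h4⟩
          exact ⟨Or.inr ⟨h3, h4⟩, h4⟩
      rw [h3]; exact h.card_ridge hd _
    exact nb_unique hΔ (h.mem i) (h.mem j) (h.mem (i + m - 1)) hij h2 hz hzj h1

end DualGraph
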