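import Pool.Agent.DualGraph.Walk

/-!
# Parity of the number of turns around a face of codimension three
-/

namespace DualGraph

open Finset

variable {V : Type*}

/-- Replace the entries at the three positions `i, j, l` of a tuple. -/
def rep {n : ℕ} (t : Fin n → V) (i j l : Fin n) (a b c : V) : Fin n → V :=
  fun q => if q = i then a else if q = j then b else if q = l then c else t q

theorem rep_swap_ij {n : ℕ} (t : Fin n → V) {i j l : Fin n} (hij : i ≠ j) (hil : i ≠ l)
    (hjl : j ≠ l) (a b c : V) : rep t i j l b a c = rep t i j l a b c ∘ Equiv.swap i j := by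
  funext q
  simp only [rep, Function.comp]
  by_cases h1 : q = i
  · subst h1
    simp [hij.symm]
  · by_cases h2 : q = j
    · subst h2
      simp [h1]
    · rw [Equiv.swap_apply_of_ne_of_ne h1 h2]
      simp [h1, h2]

theorem rep_swap_jl {n : ℕ} (t : Fin n → V) {i j l : Fin n} (hij : i ≠ j) (hil : i ≠ l)
    (hjl : j ≠ l) (a b c : V) : rep t i j l a c b = rep t i j l a b c ∘ Equiv.swap j l := by
  funext q
  simp only [rep, Function.comp]
  by_cases h1 : q = j
  · subst h1
    simp [hij.symm, hil.symm, hjl.symm]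
  · by_cases h2 : q = l
    · subst h2
      simp [h1, hil.symm, hij.symm]
    · rw [Equiv.swap_apply_of_ne_of_ne h1 h2]
      simp [h1, h2]

theorem rep_update_j {n : ℕ} (t : Fin n → V) {i j l : Fin n} (hij : i ≠ j)
    (a b c b' : V) : rep t i j l a b' c = Function.update (rep t i j l a b c) j b' := by
  funext q
  by_cases h1 : q = j
  · subst h1
    simp [rep, hij.symm]
  · simp [rep, h1]

theorem rep_injective {n : ℕ} {t : Fin n → V} (ht : Function.Injective t) {i j l : Fin n}
    (hij : i ≠ j) (hil : i ≠ l) (hjl : j ≠ l) {a b c : V} (hab : a ≠ b) (hac : a ≠ c)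
    (hbc : b ≠ c) (ha : ∀ q, q ≠ i → q ≠ j → q ≠ l → t q ≠ a)
    (hb : ∀ q, q ≠ i → q ≠ j → q ≠ l → t q ≠ b) (hc : ∀ q, q ≠ i → q ≠ j → q ≠ l → t q ≠ c) :
    Function.Injective (rep t i j l a b c) := by
  intro q r hqr
  have hti := @ht
  simp only [rep] at hqr
  grind

variable [DecidableEq V]

theorem image_rep {n : ℕ} (t : Fin n → V) {i j l : Fin n}
    (hij : i ≠ j) (hil : i ≠ l) (hjl : j ≠ l) (a b c : V) (κ : Finset V)
    (hκ : ∀ x, x ∈ κ ↔ ∃ q, q ≠ i ∧ q ≠ j ∧ q ≠ l ∧ t q = x) :
    univ.image (rep t i j l a b c) = insert a (insert b (insert c κ)) := by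
  ext x
  simp only [mem_image, mem_univ, true_and, mem_insert, hκ]
  constructor
  · rintro ⟨q, rfl⟩
    simp only [rep]
    split_ifs with h1 h2 h3
    · exact Or.inl rfl
    · exact Or.inr (Or.inl rfl)
    · exact Or.inr (Or.inr (Or.inl rfl))
    · exact Or.inr (Or.inr (Or.inr ⟨q, h1, h2, h3, rfl⟩))
  · rintro (rfl | rfl | rfl | ⟨q, h1, h2, h3, rfl⟩)
    · exact ⟨i, by simp [rep]⟩
    · exact ⟨j, by simp [rep, hij.symm]⟩
    · exact ⟨l, by simp [rep, hil.symm, hjl.symm]⟩
    · exact ⟨q, by simp [rep, h1, h2, h3]⟩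

/-- A sign function on the triples that complete a face of codimension three to a facet. -/
theorem exists_sign {Δ : Set (Finset V)} {d : ℕ} (hd : ∀ A ∈ Δ, A.card = d + 1)
    (ho : Orientable d Δ) {κ : Finset V} (hκ : κ.card + 3 = d + 1) {a₀ b₀ c₀ : V}
    (h₀ : insert a₀ (insert b₀ (insert c₀ κ)) ∈ Δ) :
    ∃ q : V → V → V → ℤ,
      (∀ a b c, insert a (insert b (insert c κ)) ∈ Δ → q a b c = 1 ∨ q a b c = -1) ∧
      (∀ a b c, insert a (insert b (insert c κ)) ∈ Δ → q b a c = - q a b c) ∧
      (∀ a b c, insert a (insert b (insert c κ)) ∈ Δ → q a c b = - q a b c) ∧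
      (∀ a b c b', insert a (insert b (insert c κ)) ∈ Δ → insert a (insert b' (insert c κ)) ∈ Δ →
        b' ∉ insert a (insert b (insert c κ)) → q a b' c = - q a b c) := by
  obtain ⟨o, ho1, ho2, ho3⟩ := ho
  have dist : ∀ a b c, insert a (insert b (insert c κ)) ∈ Δ →
      c ∉ κ ∧ b ∉ insert c κ ∧ a ∉ insert b (insert c κ) := by
    intro a b c h
    have h1 := hd _ h
    have h2 := card_insert_le a (insert b (insert c κ))
    have h3 := card_insert_le b (insert c κ)
    have h4 := card_insert_le c κ
    refine ⟨?_, ?_, ?_⟩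
    · intro h5
      have := card_insert_of_mem h5
      omega
    · intro h5
      have := card_insert_of_mem h5
      omega
    · intro h5
      have := card_insert_of_mem h5
      omega
  obtain ⟨hc0, hb0, ha0⟩ := dist _ _ _ h₀
  -- an ordering of the first facet
  set F := insert a₀ (insert b₀ (insert c₀ κ)) with hF
  have hcard : Fintype.card F = d + 1 := by rw [Fintype.card_coe]; exact hd _ h₀
  let E : F ≃ Fin (d + 1) := Fintype.equivFinOfCardEq hcard
  let t : Fin (d + 1) → V := fun q => (E.symm q : V)
  have ht : Function.Injective t := fun x y hxy => E.symm.injective (Subtype.ext hxy)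
  have ma : a₀ ∈ F := by simp [hF]
  have mb : b₀ ∈ F := by simp [hF]
  have mc : c₀ ∈ F := by simp [hF]
  let i := E ⟨a₀, ma⟩
  let j := E ⟨b₀, mb⟩
  let l := E ⟨c₀, mc⟩
  have ti : t i = a₀ := by simp [t, i]
  have tj : t j = b₀ := by simp [t, j]
  have tl : t l = c₀ := by simp [t, l]
  have hij : i ≠ j := by
    intro h
    rw [h, tj] at ti
    apply ha0; rw [← ti]; simp
  have hil : i ≠ l := by
    intro h
    rw [h, tl] at ti
    apply ha0; rw [← ti]; simp
  have hjl : j ≠ l := by
    intro h
    rw [h, tl] at tj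
    apply hb0; rw [← tj]; simp
  have hκt : ∀ x, x ∈ κ ↔ ∃ q, q ≠ i ∧ q ≠ j ∧ q ≠ l ∧ t q = x := by
    intro x
    constructor
    · intro hx
      have hxF : x ∈ F := by simp [hF, hx]
      refine ⟨E ⟨x, hxF⟩, ?_, ?_, ?_, by simp [t]⟩
      · intro h
        have : x = a₀ := by
          have := congrArg t h
          rw [ti] at this
          simpa [t] using this
        subst this
        apply ha0; simp [hx]
      · intro h
        have : x = b₀ := by
          have := congrArg t h
          rw [tj] at this
          simpa [t] using this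
        subst this
        apply hb0; simp [hx]
      · intro h
        have : x = c₀ := by
          have := congrArg t h
          rw [tl] at this
          simpa [t] using this
        subst this
        exact hc0 hx
    · rintro ⟨q, h1, h2, h3, rfl⟩
      have hq : t q ∈ F := (E.symm q).2
      rw [hF, mem_insert, mem_insert, mem_insert] at hq
      rcases hq with hq | hq | hq | hq
      · exact absurd (ht (hq.trans ti.symm)) h1
      · exact absurd (ht (hq.trans tj.symm)) h2
      · exact absurd (ht (hq.trans tl.symm)) h3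
      · exact hq
  have inj : ∀ a b c, insert a (insert b (insert c κ)) ∈ Δ →
      Function.Injective (rep t i j l a b c) := by
    intro a b c h
    obtain ⟨hc, hb, ha⟩ := dist _ _ _ h
    rw [mem_insert, not_or] at hb
    rw [mem_insert, mem_insert, not_or, not_or] at ha
    apply rep_injective ht hij hil hjl ha.1 ha.2.1 hb.1
    · intro q h1 h2 h3 h4
      exact ha.2.2 ((hκt _).2 ⟨q, h1, h2, h3, h4⟩)
    · intro q h1 h2 h3 h4
      exact hb.2 ((hκt _).2 ⟨q, h1, h2, h3, h4⟩)
    · intro q h1 h2 h3 h4
      exact hc ((hκt _).2 ⟨q, h1, h2, h3, h4⟩)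
  have img : ∀ a b c, univ.image (rep t i j l a b c) = insert a (insert b (insert c κ)) :=
    fun a b c => image_rep t hij hil hjl a b c κ hκt
  refine ⟨fun a b c => o (rep t i j l a b c), ?_, ?_, ?_, ?_⟩
  · intro a b c h
    exact ho1 _ (inj a b c h) (by rw [img]; exact h)
  · intro a b c h
    show o _ = - o _
    rw [rep_swap_ij t hij hil hjl a b c]
    exact ho2 _ (inj a b c h) (by rw [img]; exact h) i j hij
  · intro a b c h
    show o _ = - o _
    rw [rep_swap_jl t hij hil hjl a b c]
    exact ho2 _ (inj a b c h) (by rw [img]; exact h) j l hjl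
  · intro a b c b' h h' hb'
    show o _ = - o _
    rw [rep_update_j t hij a b c b']
    apply ho3 _ (inj a b c h) (by rw [img]; exact h) j b'
    · rw [img]; exact hb'
    · rw [← rep_update_j t hij a b c b', img]; exact h'

namespace Walk

variable {Δ : Set (Finset V)} {m : ℕ} {G : ℕ → Finset V} {u e : ℕ → V} {d : ℕ}

/-- If all pivots of a closed walk contain a common face of codimension three, then the pivot
changes an even number of times. -/
theorem parity (h : Walk Δ m G u e) (hd : ∀ A ∈ Δ, A.card = d + 1) (ho : Orientable d Δ)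
    (κ : Finset V) (hκ : κ.card + 3 = d + 1) (hsub : ∀ k, κ ⊆ pivot G u e k) :
    Even ((range m).filter (fun k => u (k + 1) ≠ e k)).card := by
  -- the remaining vertex of the pivot
  have hπ : ∀ k, ∃ p, p ∉ κ ∧ pivot G u e k = insert p κ := by
    intro k
    have h1 : (pivot G u e k \ κ).card = 1 := by
      rw [card_sdiff_of_subset (hsub k)]
      have := h.card_pivot hd k
      omega
    obtain ⟨p, hp⟩ := card_eq_one.1 h1
    have h2 : p ∈ pivot G u e k \ κ := by rw [hp]; simp
    rw [mem_sdiff] at h2
    refine ⟨p, h2.2, ?_⟩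
    ext x
    constructor
    · intro hx
      by_cases hxκ : x ∈ κ
      · simp [hxκ]
      · have : x ∈ pivot G u e k \ κ := mem_sdiff.2 ⟨hx, hxκ⟩
        rw [hp, mem_singleton] at this
        simp [this]
    · intro hx
      rw [mem_insert] at hx
      rcases hx with rfl | hx
      · exact h2.1
      · exact hsub k hx
  choose π hπ1 hπ2 using hπ
  have hG : ∀ k, G k = insert (π k) (insert (u k) (insert (e k) κ)) := by
    intro k
    have h1 : G k = insert (u k) (insert (e k) (pivot G u e k)) := by
      unfold pivot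
      rw [insert_erase (h.enter_mem_ridge k), insert_erase (h.exit_mem k)]
    rw [h1, hπ2 k]
    ext x
    simp only [mem_insert]
    tauto
  have hGm : ∀ k, insert (π k) (insert (u k) (insert (e k) κ)) ∈ Δ := by
    intro k; rw [← hG]; exact h.mem k
  obtain ⟨q, q1, q2, q3, q4⟩ := exists_sign hd ho hκ (hGm 0)
  have hπp : ∀ k, π k ∈ pivot G u e k := by intro k; rw [hπ2 k]; simp
  -- straight steps preserve the sign
  have straight : ∀ k, u (k + 1) = e k → q (π (k + 1)) (u (k + 1)) (e (k + 1)) =
      q (π k) (u k) (e k) := by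
    intro k hk
    have hp : pivot G u e (k + 1) = pivot G u e k := (h.pivot_eq_iff k).2 hk
    have hππ : π (k + 1) = π k := by
      have h1 : π (k + 1) ∈ pivot G u e k := by rw [← hp]; exact hπp _
      rw [hπ2 k, mem_insert] at h1
      rcases h1 with h1 | h1
      · exact h1
      · exact absurd h1 (hπ1 _)
    have h1 := hGm (k + 1)
    rw [hππ, hk] at h1
    rw [hππ, hk]
    have h2 : insert (π k) (insert (e (k + 1)) (insert (e k) κ)) ∈ Δ := by
      rw [insert_comm (e (k + 1))]; exact h1
    rw [q3 _ _ _ h2, q4 _ _ _ _ (hGm k) h2]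
    · ring
    · rw [← hG k]; exact h.enter_not_mem k
  -- turning steps change the sign
  have moved : ∀ k, u (k + 1) ≠ e k → q (π (k + 1)) (u (k + 1)) (e (k + 1)) =
      - q (π k) (u k) (e k) := by
    intro k hk
    have h1 : u (k + 1) ∉ κ := by
      intro h2
      have h3 := hsub (k + 1) h2
      unfold pivot at h3
      simp at h3
    have h2 : u (k + 1) = π k := by
      have h3 := h.exit_next_mem k
      rw [mem_erase, hG k, mem_insert, mem_insert, mem_insert] at h3
      rcases h3 with ⟨h4, h5 | h5 | h5 | h5⟩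
      · exact h5
      · exact absurd h5 h4
      · exact absurd h5 hk
      · exact absurd h5 h1
    have h3 : π (k + 1) = e k := by
      have h4 := hπp (k + 1)
      rw [h.pivot_next k, mem_erase, mem_erase, hG k, mem_insert, mem_insert, mem_insert] at h4
      rcases h4 with ⟨h5, h6, h7 | h7 | h7 | h7⟩
      · exact absurd (h7.trans h2.symm) h5
      · exact absurd h7 h6
      · exact h7
      · exact absurd h7 (hπ1 _)
    have h4 := hGm (k + 1)
    rw [h2, h3] at h4
    rw [h2, h3]
    have h5 : insert (π k) (insert (e k) (insert (e (k + 1)) κ)) ∈ Δ := by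
      rw [insert_comm (π k)]; exact h4
    have h6 : insert (π k) (insert (e (k + 1)) (insert (e k) κ)) ∈ Δ := by
      rw [insert_comm (e (k + 1))]; exact h5
    rw [q2 _ _ _ h5, q3 _ _ _ h6, q4 _ _ _ _ (hGm k) h6]
    · ring
    · rw [← hG k]; exact h.enter_not_mem k
  have hπper : π (0 + m) = π 0 := by
    have h1 : pivot G u e (0 + m) = pivot G u e 0 := by
      unfold pivot
      rw [h.perG, h.peru, h.pere]
    have h2 : π (0 + m) ∈ pivot G u e 0 := by rw [← h1]; exact hπp _
    rw [hπ2 0, mem_insert] at h2
    rcases h2 with h2 | h2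
    · exact h2
    · exact absurd h2 (hπ1 _)
  have sign : ∀ n, q (π n) (u n) (e n) =
      (-1) ^ ((range n).filter (fun k => u (k + 1) ≠ e k)).card * q (π 0) (u 0) (e 0) := by
    intro n
    induction n with
    | zero => simp
    | succ n ih =>
      rw [range_add_one, filter_insert]
      by_cases hn : u (n + 1) = e n
      · rw [if_neg (by simpa using hn), straight n hn, ih]
      · rw [if_pos hn, moved n hn, ih, card_insert_of_notMem (by simp), pow_succ]
        ring
  have h1 := sign m
  have h2 : q (π m) (u m) (e m) = q (π 0) (u 0) (e 0) := by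
    have hu := h.peru 0
    have he := h.pere 0
    rw [zero_add] at hu he hπper
    rw [hu, he, hπper]
  rw [h2] at h1
  have h3 : q (π 0) (u 0) (e 0) ≠ 0 := by
    rcases q1 _ _ _ (hGm 0) with h4 | h4 <;> rw [h4] <;> norm_num
  have h4 : (-1 : ℤ) ^ ((range m).filter (fun k => u (k + 1) ≠ e k)).card = 1 := by
    have h5 : ((-1 : ℤ) ^ ((range m).filter (fun k => u (k + 1) ≠ e k)).card - 1) *
        q (π 0) (u 0) (e 0) = 0 := by rw [sub_mul, ← h1]; ring
    rcases mul_eq_zero.1 h5 with h6 | h6
    · linarith
    · exact absurd h6 h3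
  exact (neg_one_pow_eq_one_iff_even (by norm_num)).1 h4

end Walk

end DualGraph
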