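import Pool.Agent.DualGraph.Defs

/-!
# Partial barycentric subdivisions

All faces with more than `j` vertices are subdivided, in order of decreasing dimension.
-/

namespace DualGraph

open Finset

variable {W : Type*} [DecidableEq W] {d j : ℕ} {K : Set (Finset W)}

/-- A face `τ` with `j` vertices and a chain `C` of `d + 1 - j` faces of `K` that contain `τ` and
have more than `j` vertices. -/
structure IsFlag (d j : ℕ) (K : Set (Finset W)) (τ : Finset W) (C : Finset (Finset W)) : Prop where
  base : τ.card = j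
  card : C.card + j = d + 1
  face : ∀ s ∈ C, j < s.card ∧ τ ⊆ s ∧ ∃ A ∈ K, s ⊆ A
  chain : ∀ s ∈ C, ∀ t ∈ C, s ⊆ t ∨ t ⊆ s

/-- The facets of the partial barycentric subdivision of `K` in which exactly the faces with more
than `j` vertices are subdivided.  The vertices of the subdivision are the sets `{v}`, for the
vertices `v` of `K`, and the faces of `K` with more than `j` vertices, each standing for its
barycentre; the facets are the sets `{{v} | v ∈ τ} ∪ C` for a face `τ` with `j` vertices and a
chain `C` of `d + 1 - j` faces of `K` that contain `τ` and have more than `j` vertices.  For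
`j = 1` these are the chains of `d + 1` nonempty faces, and this is the barycentric
subdivision. -/
def sdAbove (d j : ℕ) (K : Set (Finset W)) : Set (Finset (Finset W)) :=
  {S | ∃ (τ : Finset W) (C : Finset (Finset W)), IsFlag d j K τ C ∧
    S = τ.image (fun v => ({v} : Finset W)) ∪ C}

/-- The facet with base `τ` and chain `C`. -/
def fct (τ : Finset W) (C : Finset (Finset W)) : Finset (Finset W) :=
  τ.image (fun v => ({v} : Finset W)) ∪ C

theorem mem_fct {τ : Finset W} {C : Finset (Finset W)} {s : Finset W} :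
    s ∈ fct τ C ↔ (∃ v ∈ τ, {v} = s) ∨ s ∈ C := by
  unfold fct
  rw [mem_union, mem_image]

/-- `s` is a face of `K`. -/
def IsFace (K : Set (Finset W)) (s : Finset W) : Prop := ∃ A ∈ K, s ⊆ A

theorem IsFace.card_le (hK : ∀ A ∈ K, A.card = d + 1) {s : Finset W} (hs : IsFace K s) :
    s.card ≤ d + 1 := by
  obtain ⟨A, hA, h2⟩ := hs
  exact (card_le_card h2).trans (hK A hA).le

theorem IsFace.mem_of_card (hK : ∀ A ∈ K, A.card = d + 1) {s : Finset W} (hs : IsFace K s)
    (h : s.card = d + 1) : s ∈ K := by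
  obtain ⟨A, hA, h2⟩ := hs
  have := eq_of_subset_of_card_le h2 (by rw [hK A hA, h])
  rwa [this]

theorem IsFace.mono {s t : Finset W} (ht : IsFace K t) (hst : s ⊆ t) : IsFace K s := by
  obtain ⟨A, hA, h2⟩ := ht
  exact ⟨A, hA, hst.trans h2⟩

theorem isFace_of_mem {A : Finset W} (hA : A ∈ K) : IsFace K A := ⟨A, hA, Subset.rfl⟩

/-- A set with one more element. -/
theorem exists_insert {α : Type*} [DecidableEq α] {p x : Finset α} (h : p ⊆ x)
    (hc : p.card + 1 = x.card) : ∃ a, a ∉ p ∧ x = insert a p := by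
  have h1 : (x \ p).card = 1 := by rw [card_sdiff_of_subset h]; omega
  obtain ⟨a, ha⟩ := card_eq_one.1 h1
  have h2 : a ∈ x \ p := by rw [ha]; simp
  rw [mem_sdiff] at h2
  refine ⟨a, h2.2, ?_⟩
  symm
  apply eq_of_subset_of_card_le
  · intro y hy
    rw [mem_insert] at hy
    rcases hy with rfl | hy
    · exact h2.1
    · exact h hy
  · rw [card_insert_of_notMem h2.2]; omega

theorem exists_erase {α : Type*} [DecidableEq α] {A B : Finset α} (h : B ⊆ A)
    (hc : B.card + 1 = A.card) : ∃ x ∈ A, B = A.erase x := by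
  obtain ⟨a, ha, rfl⟩ := exists_insert h hc
  exact ⟨a, mem_insert_self _ _, (erase_insert ha).symm⟩

namespace IsFlag

variable {τ : Finset W} {C : Finset (Finset W)}

theorem isFace (h : IsFlag d j K τ C) {s : Finset W} (hs : s ∈ C) : IsFace K s := (h.face s hs).2.2

theorem base_subset (h : IsFlag d j K τ C) {s : Finset W} (hs : s ∈ C) : τ ⊆ s := (h.face s hs).2.1

theorem lt_card (h : IsFlag d j K τ C) {s : Finset W} (hs : s ∈ C) : j < s.card := (h.face s hs).1

theorem eq (h : IsFlag d j K τ C) {s t : Finset W} (hs : s ∈ C) (ht : t ∈ C)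
    (hst : s.card = t.card) : s = t := by
  rcases h.chain s hs t ht with h | h
  · exact eq_of_subset_of_card_le h hst.ge
  · exact (eq_of_subset_of_card_le h hst.le).symm

theorem subset (h : IsFlag d j K τ C) {s t : Finset W} (hs : s ∈ C) (ht : t ∈ C)
    (hst : s.card ≤ t.card) : s ⊆ t := by
  rcases h.chain s hs t ht with h | h
  · exact h
  · rw [eq_of_subset_of_card_le h hst]

theorem exists_card (hK : ∀ A ∈ K, A.card = d + 1) (h : IsFlag d j K τ C) {i : ℕ} (h1 : j < i)
    (h2 : i ≤ d + 1) : ∃ s ∈ C, s.card = i := by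
  have h3 : C.image Finset.card = Icc (j + 1) (d + 1) := by
    apply eq_of_subset_of_card_le
    · intro i hi
      rw [mem_image] at hi
      obtain ⟨s, hs, rfl⟩ := hi
      rw [mem_Icc]; exact ⟨h.lt_card hs, (h.isFace hs).card_le hK⟩
    · rw [Nat.card_Icc, card_image_of_injOn]
      · have := h.card
        omega
      · intro s hs t ht hst
        exact h.eq hs ht hst
  have h4 : i ∈ C.image Finset.card := by rw [h3, mem_Icc]; exact ⟨h1, h2⟩
  rw [mem_image] at h4
  exact h4

theorem not_mem_chain (h : IsFlag d j K τ C) (hj : 1 ≤ j) (v : W) : ({v} : Finset W) ∉ C := by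
  intro h1
  have := h.lt_card h1
  rw [card_singleton] at this
  omega

theorem singleton_mem (h : IsFlag d j K τ C) (hj : 1 ≤ j) {v : W} :
    ({v} : Finset W) ∈ fct τ C ↔ v ∈ τ := by
  rw [mem_fct]
  constructor
  · rintro (⟨w, hw, h1⟩ | h1)
    · rw [singleton_inj] at h1
      rwa [← h1]
    · exact absurd h1 (h.not_mem_chain hj v)
  · intro h1
    exact Or.inl ⟨v, h1, rfl⟩

theorem chain_mem {s : Finset W} (hs : 1 < s.card) : s ∈ fct τ C ↔ s ∈ C := by
  rw [mem_fct]
  constructor
  · rintro (⟨w, hw, h1⟩ | h1)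
    · rw [← h1, card_singleton] at hs
      omega
    · exact h1
  · exact Or.inr

theorem card_fct (h : IsFlag d j K τ C) (hj : 1 ≤ j) : (fct τ C).card = d + 1 := by
  unfold fct
  rw [card_union_of_disjoint, card_image_of_injective, h.base, ← h.card]
  · ring
  · intro v w hvw
    exact singleton_inj.1 hvw
  · rw [disjoint_left]
    intro s hs hs'
    rw [mem_image] at hs
    obtain ⟨v, -, rfl⟩ := hs
    exact h.not_mem_chain hj v hs'

/-- The face below a face of a flag. -/
theorem exists_pred (hK : ∀ A ∈ K, A.card = d + 1) (h : IsFlag d j K τ C) {x : Finset W}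
    (hx : x ∈ C) : ∃ p : Finset W, p.card + 1 = x.card ∧ p ⊆ x ∧ τ ⊆ p ∧
      (∀ s ∈ C, s.card < x.card → s ⊆ p) ∧ ((p = τ ∧ x.card = j + 1) ∨ p ∈ C) := by
  have hx1 := h.lt_card hx
  have hx2 := (h.isFace hx).card_le hK
  by_cases h' : x.card = j + 1
  · refine ⟨τ, by rw [h.base, h'], h.base_subset hx, Subset.rfl, ?_, Or.inl ⟨rfl, h'⟩⟩
    intro s hs hs'
    have := h.lt_card hs
    omega
  · obtain ⟨p, hp, hpc⟩ := h.exists_card hK (i := x.card - 1) (by omega) (by omega)
    refine ⟨p, by omega, h.subset hp hx (by omega), h.base_subset hp, ?_, Or.inr hp⟩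
    intro s hs hs'
    exact h.subset hs hp (by omega)

/-- There are exactly two ways to fill a gap in the chain of a flag. -/
theorem two_choices (hK : IsNormalPM d K) (h : IsFlag d j K τ C) {x : Finset W} (hx : x ∈ C) :
    ∃ x' : Finset W, x' ≠ x ∧ x'.card = x.card ∧ IsFace K x' ∧ τ ⊆ x' ∧
      (∀ s ∈ C, s.card < x.card → s ⊆ x') ∧ (∀ s ∈ C, x.card < s.card → x' ⊆ s) ∧
      ∀ z, z.card = x.card → IsFace K z → (x.card = j + 1 → τ ⊆ z) →
        (∀ s ∈ C, s.card + 1 = x.card → s ⊆ z) →
        (∀ s ∈ C, s.card = x.card + 1 → z ⊆ s) → z = x ∨ z = x' := by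
  have hc := hK.card_facet
  have hx1 := h.lt_card hx
  have hx2 := (h.isFace hx).card_le hc
  obtain ⟨p, hpc, hpx, hτp, hps, hpS⟩ := h.exists_pred hc hx
  have hpz : ∀ z : Finset W, (x.card = j + 1 → τ ⊆ z) → (∀ s ∈ C, s.card + 1 = x.card → s ⊆ z) →
      p ⊆ z := by
    intro z hz1 hz2
    rcases hpS with ⟨rfl, hpS⟩ | hpS
    · exact hz1 hpS
    · exact hz2 p hpS hpc
  by_cases htop : x.card = d + 1
  · have hxK := (h.isFace hx).mem_of_card hc htop
    obtain ⟨B, ⟨hB, hBx, hpB⟩, huniq⟩ := hK.ridge x hxK p hpx (by omega)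
    refine ⟨B, hBx, by rw [hc B hB, htop], isFace_of_mem hB, hτp.trans hpB, ?_, ?_, ?_⟩
    · intro s hs hs'
      exact (hps s hs hs').trans hpB
    · intro s hs hs'
      have := (h.isFace hs).card_le hc
      omega
    · intro z hz hzF hz0 hz1 _
      by_cases hzx : z = x
      · exact Or.inl hzx
      · exact Or.inr (huniq z ⟨hzF.mem_of_card hc (by omega), hzx, hpz z hz0 hz1⟩)
  · obtain ⟨q, hq, hqc⟩ := h.exists_card hc (i := x.card + 1) (by omega) (by omega)
    have hxq := h.subset hx hq (by omega)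
    obtain ⟨a, ha, rfl⟩ := exists_insert hpx hpc
    obtain ⟨b, hb, rfl⟩ := exists_insert hxq hqc.symm
    have hba : b ≠ a := by
      rintro rfl
      exact hb (mem_insert_self _ _)
    have hbp : b ∉ p := fun h => hb (mem_insert_of_mem h)
    have hsub : insert b p ⊆ insert b (insert a p) := insert_subset_insert _ (subset_insert _ _)
    refine ⟨insert b p, ?_, ?_, ?_, ?_, ?_, ?_, ?_⟩
    · intro h
      apply hb
      rw [← h]; exact mem_insert_self _ _
    · rw [card_insert_of_notMem hbp, card_insert_of_notMem ha]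
    · exact (h.isFace hq).mono hsub
    · exact hτp.trans (subset_insert _ _)
    · intro s hs hs'
      exact (hps s hs hs').trans (subset_insert _ _)
    · intro s hs hs'
      exact hsub.trans (h.subset hq hs (by omega))
    · intro z hz hzF hz0 hz1 hz2
      have h1 := hpz z hz0 hz1
      have h2 := hz2 _ hq hqc
      obtain ⟨c, hc1, rfl⟩ := exists_insert h1 (by omega)
      have h6 := h2 (mem_insert_self _ _)
      rw [mem_insert, mem_insert] at h6
      rcases h6 with rfl | rfl | h6
      · exact Or.inr rfl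
      · exact Or.inl rfl
      · exact absurd h6 hc1

/-- Replace one face in the chain of a flag. -/
theorem replace (h : IsFlag d j K τ C) {x x' : Finset W} (hx : x ∈ C)
    (hcard : x'.card = x.card) (hF : IsFace K x') (hτ : τ ⊆ x')
    (hlow : ∀ s ∈ C, s.card < x.card → s ⊆ x') (hup : ∀ s ∈ C, x.card < s.card → x' ⊆ s) :
    IsFlag d j K τ (insert x' (C.erase x)) := by
  have hnot : x' ∉ C.erase x := by
    intro h1
    rw [mem_erase] at h1
    exact h1.1 (h.eq h1.2 hx hcard)
  have hcomp : ∀ s ∈ C.erase x, s ⊆ x' ∨ x' ⊆ s := by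
    intro s hs
    rw [mem_erase] at hs
    rcases lt_trichotomy s.card x.card with h1 | h1 | h1
    · exact Or.inl (hlow s hs.2 h1)
    · exact absurd (h.eq hs.2 hx h1) hs.1
    · exact Or.inr (hup s hs.2 h1)
  refine ⟨h.base, ?_, ?_, ?_⟩
  · rw [card_insert_of_notMem hnot, card_erase_of_mem hx]
    have h1 := h.card
    have h2 : 0 < C.card := card_pos.2 ⟨x, hx⟩
    omega
  · intro s hs
    rw [mem_insert] at hs
    rcases hs with rfl | hs
    · exact ⟨by rw [hcard]; exact h.lt_card hx, hτ, hF⟩
    · exact h.face s (mem_of_mem_erase hs)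
  · intro s hs t ht
    rw [mem_insert] at hs ht
    rcases hs with rfl | hs <;> rcases ht with rfl | ht
    · exact Or.inl Subset.rfl
    · exact (hcomp t ht).symm
    · exact hcomp s hs
    · exact h.chain s (mem_of_mem_erase hs) t (mem_of_mem_erase ht)

/-- Change the base of a flag. -/
theorem rebase (hK : ∀ A ∈ K, A.card = d + 1) (hjd : j ≤ d) (h : IsFlag d j K τ C)
    {τ' : Finset W} (hτ' : τ'.card = j) (hs : ∀ s ∈ C, s.card = j + 1 → τ' ⊆ s) :
    IsFlag d j K τ' C := by
  obtain ⟨q, hq, hqc⟩ := h.exists_card hK (i := j + 1) (by omega) (by omega)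
  refine ⟨hτ', h.card, ?_, h.chain⟩
  intro s hsC
  have h1 := h.lt_card hsC
  exact ⟨h1, (hs q hq hqc).trans (h.subset hq hsC (by omega)), h.isFace hsC⟩

/-- A flag whose facet contains all vertices but one in the chain of another facet. -/
theorem of_erase_chain (hK : ∀ A ∈ K, A.card = d + 1) (hj : 1 ≤ j) {τ' : Finset W}
    {C' : Finset (Finset W)} (h : IsFlag d j K τ C) (h' : IsFlag d j K τ' C') {x : Finset W}
    (hx : x ∈ C) (hsub : (fct τ C).erase x ⊆ fct τ' C') :
    τ' = τ ∧ ∃ z, z.card = x.card ∧ z ∈ C' ∧ C' = insert z (C.erase x) := by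
  have hx1 := h.lt_card hx
  constructor
  · symm
    apply eq_of_subset_of_card_le
    · intro v hv
      rw [← h'.singleton_mem hj]
      apply hsub
      rw [mem_erase]
      refine ⟨?_, (h.singleton_mem hj).2 hv⟩
      rintro rfl
      exact h.not_mem_chain hj v hx
    · rw [h.base, h'.base]
  · obtain ⟨z, hz, hzc⟩ := h'.exists_card hK hx1 ((h.isFace hx).card_le hK)
    refine ⟨z, hzc, hz, ?_⟩
    symm
    apply eq_of_subset_of_card_le
    · intro y hy
      rw [mem_insert, mem_erase] at hy
      rcases hy with rfl | hy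
      · exact hz
      · have := h.lt_card hy.2
        rw [← chain_mem (τ := τ') (by omega)]
        apply hsub
        rw [mem_erase]
        exact ⟨hy.1, (chain_mem (by omega)).2 hy.2⟩
    · have hnot : z ∉ C.erase x := by
        intro h1
        rw [mem_erase] at h1
        exact h1.1 (h.eq h1.2 hx hzc)
      rw [card_insert_of_notMem hnot, card_erase_of_mem hx]
      have h1 := h.card
      have h2 := h'.card
      omega

/-- A flag whose facet contains all vertices but one in the base of another facet. -/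
theorem of_erase_base (hj : 1 ≤ j) {τ' : Finset W}
    {C' : Finset (Finset W)} (h : IsFlag d j K τ C) (h' : IsFlag d j K τ' C') {v : W}
    (hv : v ∈ τ) (hsub : (fct τ C).erase {v} ⊆ fct τ' C') :
    C' = C ∧ τ.erase v ⊆ τ' := by
  constructor
  · symm
    apply eq_of_subset_of_card_le
    · intro s hs
      have hs1 := h.lt_card hs
      rw [← chain_mem (τ := τ') (by omega)]
      apply hsub
      rw [mem_erase]
      refine ⟨?_, (chain_mem (by omega)).2 hs⟩
      rintro rfl
      exact h.not_mem_chain hj v hs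
    · have h1 := h.card
      have h2 := h'.card
      omega
  · intro w hw
    rw [mem_erase] at hw
    rw [← h'.singleton_mem hj]
    apply hsub
    rw [mem_erase]
    refine ⟨?_, (h.singleton_mem hj).2 hw.2⟩
    intro h1
    exact hw.1 (singleton_inj.1 h1)

end IsFlag

theorem mem_sdAbove {S : Finset (Finset W)} :
    S ∈ sdAbove d j K ↔ ∃ τ C, IsFlag d j K τ C ∧ S = fct τ C := Iff.rfl

theorem fct_mem {τ : Finset W} {C : Finset (Finset W)} (h : IsFlag d j K τ C) :
    fct τ C ∈ sdAbove d j K := ⟨τ, C, h, rfl⟩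

theorem sdAbove_card (hj : 1 ≤ j) {S : Finset (Finset W)} (hS : S ∈ sdAbove d j K) :
    S.card = d + 1 := by
  obtain ⟨τ, C, h, rfl⟩ := hS
  exact h.card_fct hj

theorem fct_insert_erase_chain {τ : Finset W} {C : Finset (Finset W)} (h : IsFlag d j K τ C)
    (hj : 1 ≤ j) {x x' : Finset W} (hx : x ∈ C) :
    fct τ (insert x' (C.erase x)) = insert x' ((fct τ C).erase x) := by
  have hx1 := h.lt_card hx
  ext s
  rw [mem_fct, mem_insert, mem_erase, mem_insert, mem_erase, mem_fct]
  constructor
  · rintro (⟨w, hw, rfl⟩ | rfl | ⟨h1, h2⟩)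
    · right
      refine ⟨?_, Or.inl ⟨w, hw, rfl⟩⟩
      rintro rfl
      exact h.not_mem_chain hj w hx
    · exact Or.inl rfl
    · exact Or.inr ⟨h1, Or.inr h2⟩
  · rintro (rfl | ⟨h1, ⟨w, hw, rfl⟩ | h2⟩)
    · exact Or.inr (Or.inl rfl)
    · exact Or.inl ⟨w, hw, rfl⟩
    · exact Or.inr (Or.inr ⟨h1, h2⟩)

theorem fct_insert_erase_base {τ : Finset W} {C : Finset (Finset W)} (h : IsFlag d j K τ C)
    (hj : 1 ≤ j) {v w : W} :
    fct (insert w (τ.erase v)) C = insert {w} ((fct τ C).erase {v}) := by
  ext s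
  rw [mem_fct, mem_insert, mem_erase, mem_fct]
  constructor
  · rintro (⟨u, hu, rfl⟩ | h1)
    · rw [mem_insert, mem_erase] at hu
      rcases hu with rfl | ⟨h1, h2⟩
      · exact Or.inl rfl
      · right
        exact ⟨fun h3 => h1 (singleton_inj.1 h3), Or.inl ⟨u, h2, rfl⟩⟩
    · right
      refine ⟨?_, Or.inr h1⟩
      rintro rfl
      exact h.not_mem_chain hj v h1
  · rintro (rfl | ⟨h1, ⟨u, hu, rfl⟩ | h2⟩)
    · exact Or.inl ⟨w, mem_insert_self _ _, rfl⟩
    · refine Or.inl ⟨u, ?_, rfl⟩
      rw [mem_insert, mem_erase]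
      exact Or.inr ⟨fun h2 => h1 (by rw [h2]), hu⟩
    · exact Or.inr h2

/-- The ridge property of the partial barycentric subdivision. -/
theorem sdAbove_ridge (hK : IsNormalPM d K) (hj : 1 ≤ j) (hjd : j ≤ d) {S : Finset (Finset W)}
    (hS : S ∈ sdAbove d j K) (R : Finset (Finset W)) (hR : R ⊆ S) (hRc : R.card = d) :
    ∃! T, T ∈ sdAbove d j K ∧ T ≠ S ∧ R ⊆ T := by
  have hc := hK.card_facet
  obtain ⟨x, hx, rfl⟩ := exists_erase hR (by rw [hRc, sdAbove_card hj hS])
  obtain ⟨τ, C, h, hS'⟩ := mem_sdAbove.1 hS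
  subst hS'
  rcases mem_fct.1 hx with ⟨v, hv, rfl⟩ | hxC
  · -- the missing vertex is in the base
    obtain ⟨q, hq, hqc⟩ := h.exists_card hc (i := j + 1) (by omega) (by omega)
    have hτq := h.base_subset hq
    obtain ⟨w, hw, hqe⟩ := exists_insert hτq (by rw [h.base, hqc])
    have hwv : w ≠ v := by
      rintro rfl
      exact hw hv
    have hwe : w ∉ τ.erase v := fun h1 => hw (mem_of_mem_erase h1)
    have hflag : IsFlag d j K (insert w (τ.erase v)) C := by
      apply h.rebase hc hjd
      · rw [card_insert_of_notMem hwe, card_erase_of_mem hv, h.base]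
        omega
      · intro s hs hsc
        rw [h.eq hs hq (by omega), hqe]
        exact insert_subset_insert _ (erase_subset _ _)
    refine ⟨fct (insert w (τ.erase v)) C, ⟨fct_mem hflag, ?_, ?_⟩, ?_⟩
    · intro h1
      have h2 : ({v} : Finset W) ∈ fct (insert w (τ.erase v)) C := by rw [h1]; exact hx
      rw [hflag.singleton_mem hj, mem_insert, mem_erase] at h2
      rcases h2 with h2 | h2
      · exact hwv h2.symm
      · exact h2.1 rfl
    · rw [fct_insert_erase_base h hj]
      exact subset_insert _ _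
    · rintro T ⟨hT, hTS, hRT⟩
      obtain ⟨τ', C', h', rfl⟩ := mem_sdAbove.1 hT
      obtain ⟨rfl, hsub⟩ := h.of_erase_base hj h' hv hRT
      obtain ⟨u, hu, rfl⟩ := exists_insert hsub (by
        rw [card_erase_of_mem hv, h.base, h'.base]; omega)
      have h1 : u ∈ q := h'.base_subset hq (mem_insert_self _ _)
      rw [hqe, mem_insert] at h1
      rcases h1 with rfl | h1
      · rfl
      · exfalso
        have h2 : u = v := by
          by_contra h3
          exact hu (mem_erase.2 ⟨h3, h1⟩)
        rw [h2, insert_erase hv] at hTS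
        exact hTS rfl
  · -- the missing vertex is in the chain
    obtain ⟨x', hne, hcd, hF, hτ, hlow, hup, huniq⟩ := h.two_choices hK hxC
    have hflag := h.replace hxC hcd hF hτ hlow hup
    refine ⟨fct τ (insert x' (C.erase x)), ⟨fct_mem hflag, ?_, ?_⟩, ?_⟩
    · intro h1
      have hx1 := h.lt_card hxC
      have h2 : x ∈ fct τ (insert x' (C.erase x)) := by rw [h1]; exact hx
      rw [IsFlag.chain_mem (by omega), mem_insert, mem_erase] at h2
      rcases h2 with h2 | h2
      · exact hne h2.symm
      · exact h2.1 rfl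
    · rw [fct_insert_erase_chain h hj hxC]
      exact subset_insert _ _
    · rintro T ⟨hT, hTS, hRT⟩
      obtain ⟨τ', C', h', rfl⟩ := mem_sdAbove.1 hT
      obtain ⟨rfl, z, hzc, hzC, rfl⟩ := h.of_erase_chain hc hj h' hxC hRT
      have h1 := huniq z hzc (h'.isFace hzC) (fun _ => h'.base_subset hzC) (by
        intro s hs hsc
        have hsT : s ∈ insert z (C.erase x) := mem_insert_of_mem (mem_erase.2 ⟨by
          rintro rfl; omega, hs⟩)
        exact h'.subset hsT hzC (by omega)) (by
        intro s hs hsc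
        have hsT : s ∈ insert z (C.erase x) := mem_insert_of_mem (mem_erase.2 ⟨by
          rintro rfl; omega, hs⟩)
        exact h'.subset hzC hsT (by omega))
      rcases h1 with rfl | rfl
      · rw [insert_erase hxC] at hTS
        exact absurd rfl hTS
      · rfl

theorem finite_sdAbove (hjd : j ≤ d) (hK : ∀ A ∈ K, A.card = d + 1) (hfin : K.Finite) :
    (sdAbove d j K).Finite := by
  classical
  let F : Finset (Finset W) := hfin.toFinset.biUnion powerset
  apply (F.powerset : Finset (Finset (Finset W))).finite_toSet.subset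
  intro S hS
  obtain ⟨τ, C, h, rfl⟩ := hS
  obtain ⟨q, hq, hqc⟩ := h.exists_card hK (i := j + 1) (by omega) (by omega)
  rw [mem_coe, mem_powerset]
  intro s hs
  have : IsFace K s := by
    rw [mem_union, mem_image] at hs
    rcases hs with ⟨v, hv, rfl⟩ | hs
    · exact (h.isFace hq).mono (by rw [singleton_subset_iff]; exact h.base_subset hq hv)
    · exact h.isFace hs
  obtain ⟨A, hA, hsA⟩ := this
  rw [mem_biUnion]
  exact ⟨A, hfin.mem_toFinset.2 hA, mem_powerset.2 hsA⟩

end DualGraph
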