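import Pool.Agent.DualGraph.Part

/-!
# Vertex stars of partial barycentric subdivisions are strongly connected
-/

namespace DualGraph

open Finset

variable {W : Type*} [DecidableEq W] {d j : ℕ} {K : Set (Finset W)}

/-- A flag in `c` through a prescribed subset. -/
theorem exists_lower_flag (hj : 1 ≤ j) (n : ℕ) (hjn : j ≤ n) : ∀ c x : Finset W, c.card = n →
    x ⊆ c → ∃ (τ : Finset W) (C : Finset (Finset W)), τ.card = j ∧ C.card + j = n ∧ τ ⊆ c ∧
      (∀ s ∈ C, j < s.card ∧ τ ⊆ s ∧ s ⊆ c) ∧ (∀ s ∈ C, ∀ t ∈ C, s ⊆ t ∨ t ⊆ s) ∧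
      (x.card = 1 → x ⊆ τ) ∧ (j < x.card → x ∈ C) := by
  induction n, hjn using Nat.le_induction with
  | base =>
    intro c x hc hx
    refine ⟨c, ∅, hc, by simp, Subset.rfl, by simp, by simp, fun _ => hx, ?_⟩
    intro h
    have := card_le_card hx
    omega
  | succ n hjn ih =>
    intro c x hc hx
    have ha : ∃ a ∈ c, x ≠ c → a ∉ x := by
      by_cases h : x ≠ c
      · obtain ⟨a, ha, hax⟩ := exists_of_ssubset (Finset.ssubset_iff_subset_ne.2 ⟨hx, h⟩)
        exact ⟨a, ha, fun _ => hax⟩
      · have hne : c.Nonempty := by rw [← card_pos]; omega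
        obtain ⟨a, ha⟩ := hne
        exact ⟨a, ha, fun h1 => absurd h1 h⟩
    obtain ⟨a, ha, hax⟩ := ha
    have hce : (c.erase a).card = n := by rw [card_erase_of_mem ha, hc]; omega
    obtain ⟨τ, C, h1, h2, h3, h4, h5, h6, h7⟩ := ih (c.erase a) (if x ⊆ c.erase a then x else ∅) hce
      (by split_ifs with h; exacts [h, empty_subset _])
    have hcC : c ∉ C := by
      intro h
      have h5 := (h4 c h).2.2 ha
      simp at h5
    have hxc : x ≠ c → x ⊆ c.erase a := by
      intro hne y hy
      rw [mem_erase]
      exact ⟨fun h => hax hne (h ▸ hy), hx hy⟩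
    refine ⟨τ, insert c C, h1, ?_, h3.trans (erase_subset _ _), ?_, ?_, ?_, ?_⟩
    · rw [card_insert_of_notMem hcC]; omega
    · intro s hs
      rw [mem_insert] at hs
      rcases hs with rfl | hs
      · exact ⟨by omega, h3.trans (erase_subset _ _), Subset.rfl⟩
      · exact ⟨(h4 s hs).1, (h4 s hs).2.1, (h4 s hs).2.2.trans (erase_subset _ _)⟩
    · intro s hs t ht
      rw [mem_insert] at hs ht
      rcases hs with rfl | hs <;> rcases ht with rfl | ht
      · exact Or.inl Subset.rfl
      · exact Or.inr ((h4 t ht).2.2.trans (erase_subset _ _))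
      · exact Or.inl ((h4 s hs).2.2.trans (erase_subset _ _))
      · exact h5 s hs t ht
    · intro hx1
      have hne : x ≠ c := by
        rintro rfl
        omega
      have := hxc hne
      rw [if_pos this] at h6
      exact h6 hx1
    · intro hxj
      rw [mem_insert]
      by_cases hne : x = c
      · exact Or.inl hne
      · have := hxc hne
        rw [if_pos this] at h7
        exact Or.inr (h7 hxj)

theorem IsFlag.card_upper (hK : ∀ A ∈ K, A.card = d + 1) {τ : Finset W} {C : Finset (Finset W)}
    (h : IsFlag d j K τ C) (n : ℕ) (hjn : j ≤ n) (hn : n ≤ d + 1) :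
    (C.filter (fun s => n < s.card)).card = d + 1 - n := by
  have h3 : (C.filter (fun s => n < s.card)).image Finset.card = Icc (n + 1) (d + 1) := by
    ext i
    rw [mem_image, mem_Icc]
    constructor
    · rintro ⟨s, hs, rfl⟩
      rw [mem_filter] at hs
      exact ⟨hs.2, (h.isFace hs.1).card_le hK⟩
    · rintro ⟨h1, h2⟩
      obtain ⟨s, hs, rfl⟩ := h.exists_card hK (i := i) (by omega) h2
      exact ⟨s, mem_filter.2 ⟨hs, h1⟩, rfl⟩
  have h4 : ((C.filter (fun s => n < s.card)).image Finset.card).card =
      (C.filter (fun s => n < s.card)).card := by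
    apply card_image_of_injOn
    intro s hs t ht hst
    rw [mem_coe, mem_filter] at hs ht
    exact h.eq hs.1 ht.1 hst
  rw [← h4, h3, Nat.card_Icc]
  omega

/-- Replace the lower part of a flag. -/
theorem IsFlag.glue (hK : ∀ A ∈ K, A.card = d + 1) {τ τ' c : Finset W} {C C' : Finset (Finset W)}
    (h : IsFlag d j K τ C) {n : ℕ} (hjn : j ≤ n) (hn : n ≤ d) (hc : c.card = n)
    (hcU : ∀ s ∈ C, n < s.card → c ⊆ s) (h1 : τ'.card = j) (h2 : C'.card + j = n) (h3 : τ' ⊆ c)
    (h4 : ∀ s ∈ C', j < s.card ∧ τ' ⊆ s ∧ s ⊆ c) (h5 : ∀ s ∈ C', ∀ t ∈ C', s ⊆ t ∨ t ⊆ s) :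
    IsFlag d j K τ' (C' ∪ C.filter (fun s => n < s.card)) := by
  obtain ⟨A, hA, hAc⟩ := h.exists_card hK (i := d + 1) (by omega) le_rfl
  have hcA := hcU A hA (by omega)
  have hdisj : Disjoint C' (C.filter (fun s => n < s.card)) := by
    rw [disjoint_left]
    intro s hs hs'
    rw [mem_filter] at hs'
    have := card_le_card (h4 s hs).2.2
    omega
  refine ⟨h1, ?_, ?_, ?_⟩
  · rw [card_union_of_disjoint hdisj, h.card_upper hK n hjn (by omega)]
    omega
  · intro s hs
    rw [mem_union, mem_filter] at hs
    rcases hs with hs | hs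
    · exact ⟨(h4 s hs).1, (h4 s hs).2.1, (h.isFace hA).mono ((h4 s hs).2.2.trans hcA)⟩
    · exact ⟨by omega, h3.trans (hcU s hs.1 hs.2), h.isFace hs.1⟩
  · intro s hs t ht
    rw [mem_union, mem_filter] at hs ht
    rcases hs with hs | hs <;> rcases ht with ht | ht
    · exact h5 s hs t ht
    · exact Or.inl ((h4 s hs).2.2.trans (hcU t ht.1 ht.2))
    · exact Or.inr ((h4 t ht).2.2.trans (hcU s hs.1 hs.2))
    · exact h.chain s hs.1 t ht.1

/-- Two different facets, one of which contains all vertices of the other but one, are adjacent. -/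
theorem card_inter_of_erase (hj : 1 ≤ j) {S T : Finset (Finset W)} (hS : S ∈ sdAbove d j K)
    {s : Finset W} (hs : s ∈ S) (hsT : s ∉ T) (h : S.erase s ⊆ T) :
    (S ∩ T).card = d := by
  have h1 : S ∩ T = S.erase s := by
    ext r
    rw [mem_inter, mem_erase]
    constructor
    · rintro ⟨h1, h2⟩
      exact ⟨fun h3 => hsT (h3 ▸ h2), h1⟩
    · rintro ⟨h1, h2⟩
      exact ⟨h2, h (mem_erase.2 ⟨h1, h2⟩)⟩
  rw [h1, card_erase_of_mem hs, sdAbove_card hj hS]
  omega

/-- Flags with the same top facet. -/
theorem conn_lower_flag (hK : ∀ A ∈ K, A.card = d + 1) (hj : 1 ≤ j) (hjd : j ≤ d) (x : Finset W)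
    (n : ℕ) (hjn : j ≤ n) : n ≤ d →
    ∀ (τ : Finset W) (C : Finset (Finset W)) (τ' : Finset W) (C' : Finset (Finset W)),
      IsFlag d j K τ C → IsFlag d j K τ' C' → x ∈ fct τ C → x ∈ fct τ' C' →
      (∀ r ∈ C, n < r.card → r ∈ C') →
      Relation.ReflTransGen (fun X Y : Finset (Finset W) => Y ∈ sdAbove d j K ∧ x ∈ Y ∧
        (X ∩ Y).card = d) (fct τ C) (fct τ' C') := by
  induction n, hjn using Nat.le_induction with
  | base =>
    intro hn τ C τ' C' hS hT hxS hxT h
    have hCC : C = C' := by
      apply eq_of_subset_of_card_le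
      · intro r hr
        exact h r hr (hS.lt_card hr)
      · have h1 := hS.card
        have h2 := hT.card
        omega
    subst hCC
    by_cases hττ : τ = τ'
    · rw [hττ]
    · obtain ⟨q, hq, hqc⟩ := hS.exists_card hK (i := j + 1) (by omega) (by omega)
      obtain ⟨w, hw, hwe⟩ := exists_erase (hS.base_subset hq) (by rw [hS.base, hqc])
      obtain ⟨v, hv, hve⟩ := exists_erase (hT.base_subset hq) (by rw [hT.base, hqc])
      have hvw : v ≠ w := by
        rintro rfl
        exact hττ (hwe.trans hve.symm)
      have hvτ : v ∈ τ := by rw [hwe]; exact mem_erase.2 ⟨hvw, hv⟩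
      apply Relation.ReflTransGen.single
      refine ⟨fct_mem hT, hxT, ?_⟩
      apply card_inter_of_erase hj (fct_mem hS) ((hS.singleton_mem hj).2 hvτ)
      · rw [hT.singleton_mem hj, hve]; simp
      · intro r hr
        rw [mem_erase, mem_fct] at hr
        rw [mem_fct]
        rcases hr with ⟨h1, ⟨u, hu, rfl⟩ | h2⟩
        · left
          refine ⟨u, ?_, rfl⟩
          rw [hve, mem_erase]
          exact ⟨fun h2 => h1 (by rw [h2]), hS.base_subset hq hu⟩
        · exact Or.inr h2
  | succ n hjn ih =>
    intro hn τ C τ' C' hS hT hxS hxT h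
    have ih := ih (by omega)
    obtain ⟨s, hs, hsc⟩ := hS.exists_card hK (i := n + 1) (by omega) (by omega)
    obtain ⟨t, ht, htc⟩ := hT.exists_card hK (i := n + 1) (by omega) (by omega)
    by_cases hst : s = t
    · apply ih τ C τ' C' hS hT hxS hxT
      intro r hr hrn
      rcases Nat.lt_or_ge (n + 1) r.card with h1 | h1
      · exact h r hr h1
      · have h2 : r = s := hS.eq hr hs (by omega)
        rw [h2, hst]; exact ht
    · obtain ⟨q, hq, hqc⟩ := hS.exists_card hK (i := n + 2) (by omega) (by omega)
      have hqT : q ∈ C' := h q hq (by omega)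
      have hsq := hS.subset hs hq (by omega)
      have htq := hT.subset ht hqT (by omega)
      have hcc : (s ∩ t).card = n := by
        have h1 := card_union_add_card_inter s t
        have h2 : (s ∪ t).card ≤ n + 2 := by
          rw [← hqc]; exact card_le_card (union_subset hsq htq)
        have h3 : n + 1 < (s ∪ t).card := by
          by_contra h4
          push Not at h4
          have h5 : s = s ∪ t := eq_of_subset_of_card_le subset_union_left (by omega)
          have h6 : t = s ∪ t := eq_of_subset_of_card_le subset_union_right (by omega)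
          exact hst (h5.trans h6.symm)
        omega
      obtain ⟨τ₁, C₁, g1, g2, g3, g4, g5, g6, g7⟩ := exists_lower_flag hj n hjn (s ∩ t)
        (if x ⊆ s ∩ t then x else ∅) hcc (by split_ifs with h; exacts [h, empty_subset _])
      have hcS : ∀ r ∈ C, n < r.card → s ∩ t ⊆ r := fun r hr hrn =>
        inter_subset_left.trans (hS.subset hs hr (by omega))
      have hcT : ∀ r ∈ C', n < r.card → s ∩ t ⊆ r := fun r hr hrn =>
        inter_subset_right.trans (hT.subset ht hr (by omega))
      have hS1 := hS.glue hK hjn (by omega) hcc hcS g1 g2 g3 g4 g5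
      have hT1 := hT.glue hK hjn (by omega) hcc hcT g1 g2 g3 g4 g5
      -- membership of the vertex
      have hxcase : (∃ v ∈ τ₁, {v} = x) ∨ x ∈ C₁ ∨ (x ∈ C ∧ x ∈ C' ∧ n < x.card) := by
        rcases mem_fct.1 hxS with ⟨v, hv, rfl⟩ | hxC
        · left
          have hv' : v ∈ τ' := (hT.singleton_mem hj).1 hxT
          have hsub : ({v} : Finset W) ⊆ s ∩ t := by
            rw [singleton_subset_iff, mem_inter]
            exact ⟨hS.base_subset hs hv, hT.base_subset ht hv'⟩
          rw [if_pos hsub] at g6
          have := g6 (card_singleton v)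
          rw [singleton_subset_iff] at this
          exact ⟨v, this, rfl⟩
        · right
          have hxj := hS.lt_card hxC
          have hxC' : x ∈ C' := (IsFlag.chain_mem (by omega)).1 hxT
          rcases Nat.lt_or_ge n x.card with h1 | h1
          · exact Or.inr ⟨hxC, hxC', h1⟩
          · left
            have hsub : x ⊆ s ∩ t :=
              subset_inter (hS.subset hxC hs (by omega)) (hT.subset hxC' ht (by omega))
            rw [if_pos hsub] at g7
            exact g7 hxj
      set C₂ := C₁ ∪ C.filter (fun s => n < s.card) with hC₂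
      set C₃ := C₁ ∪ C'.filter (fun s => n < s.card) with hC₃
      have hxS1 : x ∈ fct τ₁ C₂ := by
        rw [mem_fct, hC₂, mem_union, mem_filter]
        rcases hxcase with h1 | h1 | h1
        · exact Or.inl h1
        · exact Or.inr (Or.inl h1)
        · exact Or.inr (Or.inr ⟨h1.1, h1.2.2⟩)
      have hxT1 : x ∈ fct τ₁ C₃ := by
        rw [mem_fct, hC₃, mem_union, mem_filter]
        rcases hxcase with h1 | h1 | h1
        · exact Or.inl h1
        · exact Or.inr (Or.inl h1)
        · exact Or.inr (Or.inr ⟨h1.2.1, h1.2.2⟩)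
      have c1 := ih τ C τ₁ C₂ hS hS1 hxS hxS1 (by
        intro r hr hrn
        rw [hC₂, mem_union, mem_filter]
        exact Or.inr ⟨hr, hrn⟩)
      have c2 := ih τ₁ C₃ τ' C' hT1 hT hxT1 hxT (by
        intro r hr hrn
        rw [hC₃, mem_union, mem_filter] at hr
        rcases hr with hr | hr
        · have := card_le_card (g4 r hr).2.2
          omega
        · exact hr.1)
      have hsC2 : s ∈ C₂ := by
        rw [hC₂, mem_union, mem_filter]
        exact Or.inr ⟨hs, by omega⟩
      have htC3 : t ∈ C₃ := by
        rw [hC₃, mem_union, mem_filter]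
        exact Or.inr ⟨ht, by omega⟩
      have hsT1 : s ∉ fct τ₁ C₃ := by
        intro h1
        rw [IsFlag.chain_mem (by omega)] at h1
        exact hst (hT1.eq h1 htC3 (by omega))
      have hcard : (fct τ₁ C₂ ∩ fct τ₁ C₃).card = d := by
        apply card_inter_of_erase hj (fct_mem hS1) (mem_fct.2 (Or.inr hsC2)) hsT1
        intro r hr
        rw [mem_erase, mem_fct, hC₂, mem_union, mem_filter] at hr
        rw [mem_fct, hC₃, mem_union, mem_filter]
        rcases hr with ⟨h1, h2 | h2 | ⟨h2, h3⟩⟩
        · exact Or.inl h2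
        · exact Or.inr (Or.inl h2)
        · right; right
          have h4 : r.card ≠ n + 1 := by
            intro h4
            exact h1 (hS.eq h2 hs (by omega))
          exact ⟨h r h2 (by omega), h3⟩
      exact (c1.tail ⟨fct_mem hT1, hxT1, hcard⟩).trans c2

/-- The star of a vertex of the partial barycentric subdivision is strongly connected. -/
theorem sdAbove_connected (hK : IsNormalPM d K) (hj : 1 ≤ j) (hjd : j ≤ d) (x : Finset W)
    (S : Finset (Finset W)) (hS : S ∈ sdAbove d j K) (T : Finset (Finset W))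
    (hT : T ∈ sdAbove d j K) (hxS : x ∈ S) (hxT : x ∈ T) :
      Relation.ReflTransGen (fun X Y : Finset (Finset W) => Y ∈ sdAbove d j K ∧ x ∈ Y ∧
        (X ∩ Y).card = d) S T := by
  have hc := hK.card_facet
  obtain ⟨τ, C, h, hS'⟩ := mem_sdAbove.1 hS
  obtain ⟨τ', C', h', hT'⟩ := mem_sdAbove.1 hT
  subst hS'
  subst hT'
  obtain ⟨A, hA, hAc⟩ := h.exists_card hc (i := d + 1) (by omega) le_rfl
  obtain ⟨B, hB, hBc⟩ := h'.exists_card hc (i := d + 1) (by omega) le_rfl
  have hAK := (h.isFace hA).mem_of_card hc hAc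
  have hBK := (h'.isFace hB).mem_of_card hc hBc
  by_cases hxtop : x.card = d + 1
  · have hxC : x ∈ C := (IsFlag.chain_mem (by omega)).1 hxS
    have hxC' : x ∈ C' := (IsFlag.chain_mem (by omega)).1 hxT
    apply conn_lower_flag hc hj hjd x d hjd le_rfl τ C τ' C' h h' hxS hxT
    intro r hr hrn
    have := (h.isFace hr).card_le hc
    have h1 : r = x := h.eq hr hxC (by omega)
    rw [h1]; exact hxC'
  · have hxA : x ⊆ A ∧ (x.card = 1 ∨ j < x.card) := by
      rcases mem_fct.1 hxS with ⟨v, hv, rfl⟩ | hxC
      · exact ⟨by rw [singleton_subset_iff]; exact h.base_subset hA hv, Or.inl (card_singleton v)⟩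
      · have := (h.isFace hxC).card_le hc
        exact ⟨h.subset hxC hA (by omega), Or.inr (h.lt_card hxC)⟩
    have hxB : x ⊆ B := by
      rcases mem_fct.1 hxT with ⟨v, hv, rfl⟩ | hxC
      · rw [singleton_subset_iff]; exact h'.base_subset hB hv
      · have := (h'.isFace hxC).card_le hc
        exact h'.subset hxC hB (by omega)
    have key : ∀ B', Relation.ReflTransGen (fun X Y : Finset W => Y ∈ K ∧ x ⊆ Y ∧
        (X ∩ Y).card = d) A B' → B' ∈ K ∧ x ⊆ B' ∧ ∀ τ'' C'', IsFlag d j K τ'' C'' →
          x ∈ fct τ'' C'' → B' ∈ C'' →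
          Relation.ReflTransGen (fun X Y : Finset (Finset W) => Y ∈ sdAbove d j K ∧ x ∈ Y ∧
            (X ∩ Y).card = d) (fct τ C) (fct τ'' C'') := by
      intro B' hB'
      induction hB' with
      | refl =>
        refine ⟨hAK, hxA.1, ?_⟩
        intro τ'' C'' h'' hx'' hA''
        apply conn_lower_flag hc hj hjd x d hjd le_rfl τ C τ'' C'' h h'' hxS hx''
        intro r hr hrn
        have := (h.isFace hr).card_le hc
        have h1 : r = A := h.eq hr hA (by omega)
        rw [h1]; exact hA''
      | @tail P Q hbc hcd ih =>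
        obtain ⟨hQK, hxQ, hPQ⟩ := hcd
        obtain ⟨hPK, hxP, ihT⟩ := ih
        refine ⟨hQK, hxQ, ?_⟩
        intro τ'' C'' h'' hx'' hQ''
        have hne : P ≠ Q := by
          rintro rfl
          rw [inter_self, hc P hPK] at hPQ
          omega
        obtain ⟨τ₁, C₁, g1, g2, g3, g4, g5, g6, g7⟩ := exists_lower_flag hj d hjd (P ∩ Q) x hPQ
          (subset_inter hxP hxQ)
        have build : ∀ Z ∈ K, P ∩ Q ⊆ Z → IsFlag d j K τ₁ (insert Z C₁) ∧ Z ∉ C₁ := by
          intro Z hZ hZs
          have hZC : Z ∉ C₁ := by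
            intro h1
            have h2 := card_le_card (g4 Z h1).2.2
            rw [hPQ, hc Z hZ] at h2
            omega
          refine ⟨⟨g1, ?_, ?_, ?_⟩, hZC⟩
          · rw [card_insert_of_notMem hZC]; omega
          · intro s hs
            rw [mem_insert] at hs
            rcases hs with rfl | hs
            · exact ⟨by rw [hc s hZ]; omega, g3.trans hZs, isFace_of_mem hZ⟩
            · exact ⟨(g4 s hs).1, (g4 s hs).2.1, Z, hZ, (g4 s hs).2.2.trans hZs⟩
          · intro s hs t ht
            rw [mem_insert] at hs ht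
            rcases hs with rfl | hs <;> rcases ht with rfl | ht
            · exact Or.inl Subset.rfl
            · exact Or.inr ((g4 t ht).2.2.trans hZs)
            · exact Or.inl ((g4 s hs).2.2.trans hZs)
            · exact g5 s hs t ht
        obtain ⟨hS1, hPC⟩ := build P hPK inter_subset_left
        obtain ⟨hS2, hQC⟩ := build Q hQK inter_subset_right
        have hxlow : (∃ v ∈ τ₁, {v} = x) ∨ x ∈ C₁ := by
          rcases hxA.2 with h1 | h1
          · left
            have h2 := g6 h1
            obtain ⟨v, rfl⟩ := card_eq_one.1 h1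
            rw [singleton_subset_iff] at h2
            exact ⟨v, h2, rfl⟩
          · exact Or.inr (g7 h1)
        have hxS1 : ∀ Z, x ∈ fct τ₁ (insert Z C₁) := by
          intro Z
          rw [mem_fct]
          rcases hxlow with h1 | h1
          · exact Or.inl h1
          · exact Or.inr (mem_insert_of_mem h1)
        have c1 := ihT τ₁ (insert P C₁) hS1 (hxS1 P) (mem_insert_self _ _)
        have hPcard : 1 < P.card := by rw [hc P hPK]; omega
        have hcard : (fct τ₁ (insert P C₁) ∩ fct τ₁ (insert Q C₁)).card = d := by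
          apply card_inter_of_erase hj (fct_mem hS1) (mem_fct.2 (Or.inr (mem_insert_self P C₁)))
          · intro h1
            rw [IsFlag.chain_mem hPcard, mem_insert] at h1
            rcases h1 with h1 | h1
            · exact hne h1
            · exact hPC h1
          · intro r hr
            rw [mem_erase, mem_fct, mem_insert] at hr
            rw [mem_fct, mem_insert]
            rcases hr with ⟨h1, h2 | h2 | h2⟩
            · exact Or.inl h2
            · exact absurd h2 h1
            · exact Or.inr (Or.inr h2)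
        have c2 := conn_lower_flag hc hj hjd x d hjd le_rfl τ₁ (insert Q C₁) τ'' C'' hS2 h''
          (hxS1 Q) hx'' (by
            intro r hr hrn
            rw [mem_insert] at hr
            rcases hr with rfl | hr
            · exact hQ''
            · have := card_le_card (g4 r hr).2.2
              omega)
        exact (c1.tail ⟨fct_mem hS2, hxS1 Q, hcard⟩).trans c2
    exact (key B (hK.connected x A hAK B hBK hxA.1 hxB)).2.2 τ' C' h' hxT hB

/-- The partial barycentric subdivision of a normal pseudomanifold is a pseudomanifold with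
strongly connected vertex stars. -/
theorem sdAbove_isPM (hK : IsNormalPM d K) (hj : 1 ≤ j) (hjd : j ≤ d) :
    IsPM d (sdAbove d j K) where
  nonempty := by
    obtain ⟨A, hA⟩ := hK.nonempty
    have hAc := hK.card_facet A hA
    obtain ⟨τ, C, g1, g2, g3, g4, g5, -, -⟩ := exists_lower_flag hj (d + 1) (by omega) A ∅ hAc
      (empty_subset _)
    refine ⟨fct τ C, fct_mem ⟨g1, g2, ?_, g5⟩⟩
    intro s hs
    exact ⟨(g4 s hs).1, (g4 s hs).2.1, A, hA, (g4 s hs).2.2⟩
  card_facet S hS := sdAbove_card hj hS
  ridge S hS R hR hRc := sdAbove_ridge hK hj hjd hS R hR hRc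
  connected x S hS T hT hxS hxT := sdAbove_connected hK hj hjd x S hS T hT hxS hxT

end DualGraph
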