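import Pool.Agent.DualGraph.Orbit

/-!
# Peelable pseudomanifolds are determined by their dual graphs
-/

namespace DualGraph

open Finset

variable {V W : Type*} [DecidableEq V] [DecidableEq W] {d : ℕ} {Δ : Set (Finset V)}
  {Δ' : Set (Finset W)} {Φ : Finset V → Finset W}

/-- The face `τ` is heavy with respect to a set `R` of ridges of `Δ` when it lies in at least six
facets of `Δ` and in at least four members of `R`. -/
def Heavy (Δ : Set (Finset V)) (R : Set (Finset V)) (τ : Finset V) : Prop :=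
  6 ≤ {A | A ∈ Δ ∧ τ ⊆ A}.ncard ∧ 4 ≤ {ρ | ρ ∈ R ∧ τ ⊆ ρ}.ncard

/-- `Δ` is peelable: every nonempty set `R` of ridges contains a ridge in which at most one face of
codimension two of `Δ` is heavy with respect to `R`. -/
def Peelable (d : ℕ) (Δ : Set (Finset V)) : Prop :=
  ∀ R : Set (Finset V), R.Nonempty → (∀ ρ ∈ R, ρ.card = d ∧ ∃ A ∈ Δ, ρ ⊆ A) →
    ∃ ρ ∈ R, ∀ τ τ' : Finset V, τ ⊆ ρ → τ' ⊆ ρ → τ.card + 1 = d → τ'.card + 1 = d →
      Heavy Δ R τ → Heavy Δ R τ' → τ = τ'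

/-- The ridges at which the correspondence is not straight. -/
def movedRidges (d : ℕ) (Δ : Set (Finset V)) (Φ : Finset V → Finset W) : Set (Finset V) :=
  {ρ | ∃ A ∈ Δ, ∃ B ∈ Δ, (A ∩ B).card = d ∧ ρ = A ∩ B ∧ ¬ Straight d Δ Φ A B}

theorem Walk.inter_next {m : ℕ} {F : ℕ → Finset V} {a b : ℕ → V} (h : Walk Δ m F a b) (k : ℕ) :
    F k ∩ F (k + 1) = (F k).erase (a k) := by
  ext x
  rw [mem_inter, mem_erase, h.mem_next]
  constructor
  · rintro ⟨h3, h4 | h4⟩
    · exact absurd (h4 ▸ h3) (h.enter_not_mem k)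
    · exact h4
  · rintro ⟨h3, h4⟩
    exact ⟨h4, Or.inr ⟨h3, h4⟩⟩

theorem Walk.exit_not_mem {m : ℕ} {F : ℕ → Finset V} {a b : ℕ → V} (h : Walk Δ m F a b) (k : ℕ) :
    a k ∉ F (k + 1) := by
  intro h1
  have h2 : a k ∈ F k ∩ F (k + 1) := mem_inter.2 ⟨h.exit_mem k, h1⟩
  rw [h.inter_next] at h2
  simp at h2

/-- The image of a closed walk. -/
theorem Walk.map (hΔ : IsPM d Δ) (hΔ' : IsPM d Δ') (hΦ : DualIso d Δ Δ' Φ) {m : ℕ}
    {F : ℕ → Finset V} {a b : ℕ → V} (h : Walk Δ m F a b) :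
    ∃ u e : ℕ → W, Walk Δ' m (fun k => Φ (F k)) u e ∧ (∀ k, Opp d Δ Φ (F k) (a k) (u k)) ∧
      ∀ k, Opp d Δ Φ (F k) (b k) (e k) := by
  have hu : ∀ k, ∃ u, Opp d Δ Φ (F k) (a k) u := fun k =>
    Opp.exists hΔ hΔ' hΦ (h.mem k) (h.exit_mem k)
  have he : ∀ k, ∃ e, Opp d Δ Φ (F k) (b k) e := fun k =>
    Opp.exists hΔ hΔ' hΦ (h.mem k) (h.enter_mem k)
  choose u hu using hu
  choose e he using he
  have hadj : ∀ k, (F k ∩ F (k + 1)).card = d := by
    intro k; rw [h.inter_next]; exact h.card_ridge hΔ.card_facet k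
  have hadj' : ∀ k, (Φ (F k) ∩ Φ (F (k + 1))).card = d := fun k =>
    (hΦ.adj _ (h.mem k) _ (h.mem (k + 1))).1 (hadj k)
  have n1 : ∀ k, u k ∉ Φ (F (k + 1)) := by
    intro k h1
    exact h.exit_not_mem k ((Opp.mem_adj hΔ hΔ' hΦ (h.mem k) (h.mem (k + 1)) (hadj k) (hu k)).2 h1)
  have n2 : ∀ k, e (k + 1) ∉ Φ (F k) := by
    intro k h1
    exact h.enter_not_mem k ((Opp.mem_adj hΔ hΔ' hΦ (h.mem (k + 1)) (h.mem k)
      (by rw [inter_comm]; exact hadj k) (he (k + 1))).2 h1)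
  refine ⟨u, e, ?_, hu, he⟩
  constructor
  · intro k; exact hΦ.mem (h.mem k)
  · intro k; exact (hu k).mem_right
  · intro k; exact (he k).mem_right
  · exact n2
  · intro k
    rw [← inter_eq_erase hΔ'.card_facet (hΦ.mem (h.mem k)) (hadj' k) (hu k).mem_right (n1 k),
      inter_comm, inter_eq_erase hΔ'.card_facet (hΦ.mem (h.mem (k + 1)))
        (by rw [inter_comm]; exact hadj' k) (he (k + 1)).mem_right (n2 k),
      insert_erase (he (k + 1)).mem_right]
  · intro k h1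
    apply h.exit_ne k
    have h2 := hu k
    rw [h1] at h2
    exact Opp.unique_left hΔ hΔ' hΦ (h.mem k) h2 (he k)
  · intro k; show Φ (F (k + m)) = Φ (F k); rw [h.perG]
  · intro k
    have h1 := hu (k + m)
    rw [h.perG, h.peru] at h1
    exact Opp.unique hΔ hΔ' hΦ (h.mem k) h1 (hu k)
  · intro k
    have h1 := he (k + m)
    rw [h.perG, h.pere] at h1
    exact Opp.unique hΔ hΔ' hΦ (h.mem k) h1 (he k)
  · intro i hi j hj hij
    exact h.inj i hi j hj (hΦ.bij.injOn (h.mem i) (h.mem j) hij)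

theorem finite_movedRidges (hfin : Δ.Finite) : (movedRidges d Δ Φ).Finite := by
  apply ((hfin.prod hfin).image (fun p : Finset V × Finset V => p.1 ∩ p.2)).subset
  rintro ρ ⟨A, hA, B, hB, -, rfl, -⟩
  exact ⟨(A, B), ⟨hA, hB⟩, rfl⟩

/-- A moved vertex of a ridge yields a heavy face. -/
theorem heavy_of_moved (hΔ : IsPM d Δ) (hfin : Δ.Finite) (hΔ' : IsPM d Δ')
    (ho : Orientable d Δ') (hΦ : DualIso d Δ Δ' Φ) {A B : Finset V} (hA : A ∈ Δ) (hB : B ∈ Δ)
    (hAB : (A ∩ B).card = d) {y : V} (hy : y ∈ A ∩ B) {w : W} (hw : Opp d Δ Φ A y w)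
    (hnw : ¬ Opp d Δ Φ B y w) : Heavy Δ (movedRidges d Δ Φ) ((A ∩ B).erase y) := by
  have hd := hΔ.card_facet
  rw [mem_inter] at hy
  obtain ⟨x, hx, hxB⟩ := exists_mem_sdiff hd hA hAB
  have hxy : x ≠ y := by
    rintro rfl
    exact hxB hy.2
  obtain ⟨m, F, a, b, h, hm, hF0, ha0, hb0, hab⟩ := exists_walk hΔ hfin hA hx hy.1 hxy
  obtain ⟨u, e, h', hu, he⟩ := h.map hΔ hΔ' hΦ
  have hτ : (A ∩ B).erase y = pivot F a b 0 := by
    unfold pivot
    rw [hF0, ha0, hb0, inter_eq_erase hd hA hAB hx hxB]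
  have hpiv : ∀ k, pivot F a b k = pivot F a b 0 := by
    intro k
    exact h.pivot_const (Nat.zero_le k) (fun k _ _ => hab k)
  have hsub : ∀ k, (A ∩ B).erase y ⊆ (F k).erase (a k) := by
    intro k
    rw [hτ, ← hpiv k]
    exact Walk.pivot_subset_ridge k
  -- turns are moved ridges
  have hturn : ∀ k, u (k + 1) ≠ e k → (F k).erase (a k) ∈ movedRidges d Δ Φ := by
    intro k hk
    refine ⟨F k, h.mem k, F (k + 1), h.mem (k + 1), ?_, (h.inter_next k).symm, ?_⟩
    · rw [h.inter_next]; exact h.card_ridge hd k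
    · intro hs
      apply hk
      have hbk : b k ∈ F k ∩ F (k + 1) := by
        rw [h.inter_next]; exact h.enter_mem_ridge k
      have h1 := hs (b k) hbk (e k) (he k)
      have h2 := hu (k + 1)
      rw [hab k] at h2
      exact Opp.unique hΔ hΔ' hΦ (h.mem (k + 1)) h2 h1
  have hF1 : F 1 = B := by
    have h1 : a 0 ∉ F 1 := h.exit_not_mem 0
    have h2 : (F 0 ∩ F 1).card = d := by
      have := h.inter_next 0
      rw [zero_add] at this
      rw [this]; exact h.card_ridge hd 0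
    rw [hF0] at h2
    rw [ha0] at h1
    exact nb_unique hΔ hA (h.mem 1) hB h2 hAB hx h1 hxB
  have h0 : u 1 ≠ e 0 := by
    intro h1
    apply hnw
    have h2 := hu 1
    have h3 := he 0
    have h4 : a 1 = b 0 := hab 0
    rw [hF1, h4, hb0] at h2
    rw [hF0, hb0] at h3
    have h5 : e 0 = w := Opp.unique hΔ hΔ' hΦ hA h3 hw
    rw [← h5, ← h1]; exact h2
  have h4 := h'.four_le hΔ' ho hm h0
  constructor
  · by_contra hlt
    push Not at hlt
    have hmle : m ≤ {C | C ∈ Δ ∧ (A ∩ B).erase y ⊆ C}.ncard := by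
      have h1 : (((range m).image F : Finset (Finset V)) : Set (Finset V)) ⊆
          {C | C ∈ Δ ∧ (A ∩ B).erase y ⊆ C} := by
        intro C hC
        rw [coe_image] at hC
        obtain ⟨k, -, rfl⟩ := hC
        exact ⟨h.mem k, (hsub k).trans (erase_subset _ _)⟩
      have h2 := Set.ncard_le_ncard h1 (hfin.subset (fun C hC => hC.1))
      rw [Set.ncard_coe_finset, card_image_of_injOn, card_range] at h2
      · exact h2
      · intro i hi j hj hij
        rw [coe_range] at hi hj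
        exact h.inj i hi j hj hij
    have hm' : m = 3 ∨ m = 4 ∨ m = 5 := by omega
    rcases hm' with rfl | rfl | rfl
    · have := card_filter_le (range 3) (fun k => u (k + 1) ≠ e k)
      rw [card_range] at this
      omega
    · apply h0
      apply h'.not_turn_four hΔ'.card_facet
      intro h1
      have h2 := (hΦ.adj _ (h.mem 0) _ (h.mem 2)).2 h1
      rcases h.adjacent_imp hΔ hab (by norm_num) h2 with h3 | h3
      · have := h.inj 2 (by norm_num) 1 (by norm_num) h3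
        omega
      · have := h.inj 2 (by norm_num) 3 (by norm_num) h3
        omega
    · apply h0
      apply h'.not_turn_five hΔ'.card_facet ho
      intro k h1
      have h2 := (hΦ.adj _ (h.mem k) _ (h.mem (k + 2))).2 h1
      rcases h.adjacent_imp hΔ hab (by norm_num) h2 with h3 | h3
      · have := h.eq_mod_of_eq (by norm_num) h3
        omega
      · have := h.eq_mod_of_eq (by norm_num) h3
        omega
  · have h1 : ((((range m).filter (fun k => u (k + 1) ≠ e k)).image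
        (fun k => (F k).erase (a k)) : Finset (Finset V)) : Set (Finset V)) ⊆
        {ρ | ρ ∈ movedRidges d Δ Φ ∧ (A ∩ B).erase y ⊆ ρ} := by
      intro ρ hρ
      rw [coe_image] at hρ
      obtain ⟨k, hk, rfl⟩ := hρ
      rw [mem_coe, mem_filter] at hk
      exact ⟨hturn k hk.2, hsub k⟩
    have h2 := Set.ncard_le_ncard h1 ((finite_movedRidges hfin).subset (fun ρ hρ => hρ.1))
    rw [Set.ncard_coe_finset, card_image_of_injOn] at h2
    · exact h4.trans h2
    · intro i hi j hj hij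
      rw [mem_coe, mem_filter, mem_range] at hi hj
      exact h.ridge_inj hΔ hm hi.1 hj.1 hij

/-- A finite peelable normal pseudomanifold is determined by its dual graph among orientable
normal pseudomanifolds. -/
theorem exists_map_of_peelable (hΔ : IsPM d Δ) (hfin : Δ.Finite) (hpeel : Peelable d Δ)
    (hΔ' : IsPM d Δ') (ho : Orientable d Δ') (hΦ : DualIso d Δ Δ' Φ) :
    ∃ f : V → W, Set.InjOn f {x | ∃ A ∈ Δ, x ∈ A} ∧ ∀ A ∈ Δ, Φ A = A.image f := by
  apply exists_map hΔ hΔ' hΦ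
  intro A hA B hB hAB
  by_contra hs
  have hR : (movedRidges d Δ Φ).Nonempty := ⟨A ∩ B, A, hA, B, hB, hAB, rfl, hs⟩
  obtain ⟨ρ, hρ, hρ'⟩ := hpeel _ hR (by
    rintro ρ ⟨A, hA, B, hB, hAB, rfl, -⟩
    exact ⟨hAB, A, hA, inter_subset_left⟩)
  obtain ⟨C, hC, D, hD, hCD, rfl, hsCD⟩ := hρ
  obtain ⟨y, hy, z, hz, hyz, ⟨u, hu, hnu⟩, ⟨w, hw, hnw⟩⟩ :=
    exists_two_moved hΔ hΔ' hΦ hC hD hCD hsCD
  have h1 := heavy_of_moved hΔ hfin hΔ' ho hΦ hC hD hCD hy hu hnu
  have h2 := heavy_of_moved hΔ hfin hΔ' ho hΦ hC hD hCD hz hw hnw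
  have h3 := hρ' _ _ (erase_subset y _) (erase_subset z _)
    (by rw [card_erase_add_one hy, hCD]) (by rw [card_erase_add_one hz, hCD]) h1 h2
  have h4 : z ∈ (C ∩ D).erase y := mem_erase.2 ⟨hyz.symm, hz⟩
  rw [h3] at h4
  simp at h4

end DualGraph
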