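import Pool.Agent.DualGraph.PartConn
import Pool.Agent.DualGraph.Peel

/-!
# Partial barycentric subdivisions are peelable
-/

namespace DualGraph

open Finset

variable {W : Type*} [DecidableEq W] {d j : ℕ} {K : Set (Finset W)} {τ τ' : Finset W}
  {C C' : Finset (Finset W)}

theorem IsFlag.sub_base (h : IsFlag d j K τ C) (h' : IsFlag d j K τ' C') (hj : 1 ≤ j)
    {x y : Finset W} (hsub : ((fct τ C).erase x).erase y ⊆ fct τ' C') {v : W} (hv : v ∈ τ)
    (h1 : {v} ≠ x) (h2 : {v} ≠ y) : v ∈ τ' := by
  rw [← h'.singleton_mem hj]
  apply hsub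
  rw [mem_erase, mem_erase]
  exact ⟨h2, h1, (h.singleton_mem hj).2 hv⟩

theorem IsFlag.sub_chain (h : IsFlag d j K τ C) (hj : 1 ≤ j)
    {x y : Finset W} (hsub : ((fct τ C).erase x).erase y ⊆ fct τ' C') {s : Finset W} (hs : s ∈ C)
    (h1 : s ≠ x) (h2 : s ≠ y) : s ∈ C' := by
  have hs1 := h.lt_card hs
  rw [← IsFlag.chain_mem (τ := τ') (by omega)]
  apply hsub
  rw [mem_erase, mem_erase]
  exact ⟨h2, h1, (IsFlag.chain_mem (by omega)).2 hs⟩

theorem IsFlag.two_missing (hK : ∀ A ∈ K, A.card = d + 1) (h : IsFlag d j K τ C)
    (h' : IsFlag d j K τ' C') {x y : Finset W} (hx : x ∈ C) (hy : y ∈ C) (hxy : x ≠ y)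
    (hsub : (C.erase x).erase y ⊆ C') :
    ∃ z w, z.card = x.card ∧ w.card = y.card ∧ z ∈ C' ∧ w ∈ C' ∧
      C' = insert z (insert w ((C.erase x).erase y)) := by
  have hx1 := h.lt_card hx
  have hy1 := h.lt_card hy
  have hcne : x.card ≠ y.card := fun h1 => hxy (h.eq hx hy h1)
  obtain ⟨z, hz, hzc⟩ := h'.exists_card hK hx1 ((h.isFace hx).card_le hK)
  obtain ⟨w, hw, hwc⟩ := h'.exists_card hK hy1 ((h.isFace hy).card_le hK)
  refine ⟨z, w, hzc, hwc, hz, hw, ?_⟩
  symm
  apply eq_of_subset_of_card_le
  · intro v hv
    rw [mem_insert, mem_insert] at hv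
    rcases hv with rfl | rfl | hv
    · exact hz
    · exact hw
    · exact hsub hv
  · have hnot : w ∉ (C.erase x).erase y := by
      intro h1
      rw [mem_erase, mem_erase] at h1
      exact h1.1 (h.eq h1.2.2 hy hwc)
    have hnot' : z ∉ insert w ((C.erase x).erase y) := by
      intro h1
      rw [mem_insert, mem_erase, mem_erase] at h1
      rcases h1 with h1 | h1
      · apply hcne; rw [← hzc, h1, hwc]
      · exact h1.2.1 (h.eq h1.2.2 hx hzc)
    rw [card_insert_of_notMem hnot', card_insert_of_notMem hnot,
      card_erase_of_mem (mem_erase.2 ⟨hxy.symm, hy⟩), card_erase_of_mem hx]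
    have h1 := h.card
    have h2 := h'.card
    have : 2 ≤ C.card := by
      have h1 : ({x, y} : Finset (Finset W)) ⊆ C := by
        intro v hv
        rw [mem_insert, mem_singleton] at hv
        rcases hv with rfl | rfl
        · exact hx
        · exact hy
      have h2 := card_le_card h1
      rwa [card_pair hxy] at h2
    omega

/-- Two vertices of the base missing: at most three facets. -/
theorem IsFlag.degree_base_base (hK : ∀ A ∈ K, A.card = d + 1) (hj : 1 ≤ j) (hjd : j ≤ d)
    (h : IsFlag d j K τ C) {v v' : W} (hv : v ∈ τ) (hv' : v' ∈ τ) (hvv : v ≠ v') :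
    {T | T ∈ sdAbove d j K ∧ ((fct τ C).erase {v}).erase {v'} ⊆ T}.ncard ≤ 3 := by
  obtain ⟨q, hq, hqc⟩ := h.exists_card hK (i := j + 1) (by omega) (by omega)
  have hτq := h.base_subset hq
  have hsub : {T | T ∈ sdAbove d j K ∧ ((fct τ C).erase {v}).erase {v'} ⊆ T} ⊆
      (((q \ (τ.erase v).erase v').image (fun u => fct (q.erase u) C) :
        Finset (Finset (Finset W))) : Set (Finset (Finset W))) := by
    rintro T ⟨hT, hsub⟩
    obtain ⟨τ', C', h', hT'⟩ := mem_sdAbove.1 hT
    subst hT'
    have hCC : C = C' := by
      apply eq_of_subset_of_card_le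
      · intro s hs
        apply h.sub_chain hj hsub hs
        · rintro rfl; exact h.not_mem_chain hj v hs
        · rintro rfl; exact h.not_mem_chain hj v' hs
      · have h1 := h.card
        have h2 := h'.card
        omega
    subst hCC
    obtain ⟨u, hu, hue⟩ := exists_erase (h'.base_subset hq) (by rw [h'.base, hqc])
    rw [mem_coe, mem_image]
    refine ⟨u, ?_, by rw [hue]⟩
    rw [mem_sdiff, mem_erase, mem_erase]
    refine ⟨hu, ?_⟩
    rintro ⟨h1, h2, h3⟩
    have h4 := h.sub_base h' hj hsub h3 (fun h => h2 (singleton_inj.1 h))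
      (fun h => h1 (singleton_inj.1 h))
    rw [hue] at h4
    simp at h4
  have h3 := Set.ncard_le_ncard hsub (Finset.finite_toSet _)
  rw [Set.ncard_coe_finset] at h3
  refine h3.trans (card_image_le.trans ?_)
  rw [card_sdiff_of_subset (((erase_subset _ _).trans (erase_subset _ _)).trans hτq),
    card_erase_of_mem (mem_erase.2 ⟨hvv.symm, hv'⟩), card_erase_of_mem hv, h.base, hqc]
  omega

/-- A vertex of the base and a vertex of the chain, which is not the first one, missing: at most
four facets. -/
theorem IsFlag.degree_base_chain (hK : IsNormalPM d K) (hj : 1 ≤ j) (hjd : j ≤ d)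
    (h : IsFlag d j K τ C) {v : W} {y : Finset W} (hv : v ∈ τ) (hy : y ∈ C)
    (hyc : y.card ≠ j + 1) :
    {T | T ∈ sdAbove d j K ∧ ((fct τ C).erase {v}).erase y ⊆ T}.ncard ≤ 4 := by
  have hc := hK.card_facet
  obtain ⟨q, hq, hqc⟩ := h.exists_card hc (i := j + 1) (by omega) (by omega)
  have hqy : q ≠ y := by rintro rfl; exact hyc hqc
  obtain ⟨w₀, hw₀, hqe⟩ := exists_insert (h.base_subset hq) (by rw [h.base, hqc])
  obtain ⟨y', -, -, -, -, -, -, hy'⟩ := h.two_choices hK hy
  have hyv : y ≠ {v} := by rintro rfl; exact h.not_mem_chain hj v hy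
  have hsub : {T | T ∈ sdAbove d j K ∧ ((fct τ C).erase {v}).erase y ⊆ T} ⊆
      (({fct τ C, fct τ (insert y' (C.erase y)), fct (insert w₀ (τ.erase v)) C,
        fct (insert w₀ (τ.erase v)) (insert y' (C.erase y))} :
          Finset (Finset (Finset W))) : Set (Finset (Finset W))) := by
    rintro T ⟨hT, hsub⟩
    obtain ⟨τ', C', h', hT'⟩ := mem_sdAbove.1 hT
    subst hT'
    -- the chain
    have hCsub : C.erase y ⊆ C' := by
      intro s hs
      rw [mem_erase] at hs
      apply h.sub_chain hj hsub hs.2 _ hs.1
      rintro rfl; exact h.not_mem_chain hj v hs.2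
    obtain ⟨z, hzC, hCe⟩ : ∃ z ∉ C.erase y, C' = insert z (C.erase y) := by
      apply exists_insert hCsub
      rw [card_erase_of_mem hy]
      have h1 := h.card
      have h2 := h'.card
      have h3 : 0 < C.card := card_pos.2 ⟨y, hy⟩
      omega
    have hzc : z.card = y.card := by
      obtain ⟨w, hw, hwc⟩ := h'.exists_card hc (i := y.card) (h.lt_card hy)
        ((h.isFace hy).card_le hc)
      have hw2 := hw
      rw [hCe, mem_insert] at hw2
      rcases hw2 with hw2 | hw2
      · rw [← hw2, hwc]
      · exfalso
        rw [mem_erase] at hw2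
        exact hw2.1 (h.eq hw2.2 hy hwc)
    have hz' : z ∈ C' := by rw [hCe]; exact mem_insert_self _ _
    have hzy : z = y ∨ z = y' := by
      apply hy' z hzc (h'.isFace hz') (fun h1 => absurd h1 hyc)
      · intro s hs hsc
        have hsT : s ∈ C' := hCsub (mem_erase.2 ⟨by rintro rfl; omega, hs⟩)
        exact h'.subset hsT hz' (by omega)
      · intro s hs hsc
        have hsT : s ∈ C' := hCsub (mem_erase.2 ⟨by rintro rfl; omega, hs⟩)
        exact h'.subset hz' hsT (by omega)
    -- the base
    have hτsub : τ.erase v ⊆ τ' := by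
      intro w hw
      rw [mem_erase] at hw
      apply h.sub_base h' hj hsub hw.2 (fun h => hw.1 (singleton_inj.1 h))
      rintro rfl; exact h.not_mem_chain hj w hy
    obtain ⟨u, hu, hτe⟩ : ∃ u ∉ τ.erase v, τ' = insert u (τ.erase v) := by
      apply exists_insert hτsub
      rw [card_erase_of_mem hv, h.base, h'.base]
      omega
    have hqC' : q ∈ C' := hCsub (mem_erase.2 ⟨hqy, hq⟩)
    have huq : u ∈ q := h'.base_subset hqC' (by rw [hτe]; exact mem_insert_self _ _)
    have huv : u = v ∨ u = w₀ := by
      rw [hqe, mem_insert] at huq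
      rcases huq with h1 | h1
      · exact Or.inr h1
      · left
        by_contra h2
        exact hu (mem_erase.2 ⟨h2, h1⟩)
    rw [mem_coe, mem_insert, mem_insert, mem_insert, mem_singleton]
    rcases huv with h1 | h1 <;> rcases hzy with h2 | h2 <;> rw [h1] at hτe <;> rw [h2] at hCe
    · rw [insert_erase hv] at hτe
      rw [insert_erase hy] at hCe
      rw [hτe, hCe]
      exact Or.inl rfl
    · rw [insert_erase hv] at hτe
      rw [hτe, hCe]
      exact Or.inr (Or.inl rfl)
    · rw [insert_erase hy] at hCe
      rw [hτe, hCe]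
      exact Or.inr (Or.inr (Or.inl rfl))
    · rw [hτe, hCe]
      exact Or.inr (Or.inr (Or.inr rfl))
  have h3 := Set.ncard_le_ncard hsub (Finset.finite_toSet _)
  rw [Set.ncard_coe_finset] at h3
  exact h3.trans card_le_four

theorem IsFlag.base_eq (h : IsFlag d j K τ C) (h' : IsFlag d j K τ' C') (hj : 1 ≤ j)
    {x y : Finset W} (hx : x ∈ C) (hy : y ∈ C)
    (hsub : ((fct τ C).erase x).erase y ⊆ fct τ' C') : τ = τ' := by
  apply eq_of_subset_of_card_le
  · intro w hw
    apply h.sub_base h' hj hsub hw
    · rintro rfl; exact h.not_mem_chain hj w hx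
    · rintro rfl; exact h.not_mem_chain hj w hy
  · rw [h.base, h'.base]

/-- Two vertices of the chain of nonconsecutive dimensions missing: at most four facets. -/
theorem IsFlag.degree_chain_chain (hK : IsNormalPM d K) (hj : 1 ≤ j)
    (h : IsFlag d j K τ C) {x y : Finset W} (hx : x ∈ C) (hy : y ∈ C) (hxy : x ≠ y)
    (h1 : y.card ≠ x.card + 1) (h2 : y.card + 1 ≠ x.card) :
    {T | T ∈ sdAbove d j K ∧ ((fct τ C).erase x).erase y ⊆ T}.ncard ≤ 4 := by
  have hc := hK.card_facet
  obtain ⟨x', -, -, -, -, -, -, hx'⟩ := h.two_choices hK hx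
  obtain ⟨y', -, -, -, -, -, -, hy'⟩ := h.two_choices hK hy
  set D := (C.erase x).erase y with hD
  have hsub : {T | T ∈ sdAbove d j K ∧ ((fct τ C).erase x).erase y ⊆ T} ⊆
      (({fct τ (insert x (insert y D)), fct τ (insert x (insert y' D)),
        fct τ (insert x' (insert y D)), fct τ (insert x' (insert y' D))} :
          Finset (Finset (Finset W))) : Set (Finset (Finset W))) := by
    rintro T ⟨hT, hsub⟩
    obtain ⟨τ', C', h', hT'⟩ := mem_sdAbove.1 hT
    subst hT'
    have hττ := h.base_eq h' hj hx hy hsub
    have hDC : D ⊆ C' := by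
      intro s hs
      rw [hD, mem_erase, mem_erase] at hs
      exact h.sub_chain hj hsub hs.2.2 hs.2.1 hs.1
    obtain ⟨z, w, hzc, hwc, hz, hw, hCe⟩ := h.two_missing hc h' hx hy hxy hDC
    have hz' : z = x ∨ z = x' := by
      apply hx' z hzc (h'.isFace hz) (fun _ => h'.base_subset hz |> fun h3 => hττ ▸ h3)
      · intro s hs hsc
        have hsD : s ∈ D := mem_erase.2 ⟨by rintro rfl; omega, mem_erase.2 ⟨by rintro rfl; omega, hs⟩⟩
        exact h'.subset (hDC hsD) hz (by omega)
      · intro s hs hsc
        have hsD : s ∈ D := mem_erase.2 ⟨by rintro rfl; omega, mem_erase.2 ⟨by rintro rfl; omega, hs⟩⟩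
        exact h'.subset hz (hDC hsD) (by omega)
    have hw' : w = y ∨ w = y' := by
      apply hy' w hwc (h'.isFace hw) (fun _ => h'.base_subset hw |> fun h3 => hττ ▸ h3)
      · intro s hs hsc
        have hsD : s ∈ D := mem_erase.2 ⟨by rintro rfl; omega, mem_erase.2 ⟨by rintro rfl; omega, hs⟩⟩
        exact h'.subset (hDC hsD) hw (by omega)
      · intro s hs hsc
        have hsD : s ∈ D := mem_erase.2 ⟨by rintro rfl; omega, mem_erase.2 ⟨by rintro rfl; omega, hs⟩⟩
        exact h'.subset hw (hDC hsD) (by omega)
    rw [mem_coe, mem_insert, mem_insert, mem_insert, mem_singleton, ← hττ]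
    rcases hz' with h4 | h4 <;> rcases hw' with h5 | h5 <;> rw [h4, h5] at hCe
    · exact Or.inl (by rw [hCe])
    · exact Or.inr (Or.inl (by rw [hCe]))
    · exact Or.inr (Or.inr (Or.inl (by rw [hCe])))
    · exact Or.inr (Or.inr (Or.inr (by rw [hCe])))
  have h3 := Set.ncard_le_ncard hsub (Finset.finite_toSet _)
  rw [Set.ncard_coe_finset] at h3
  exact h3.trans card_le_four

/-- The partial barycentric subdivision of a normal pseudomanifold is peelable. -/
theorem sdAbove_peelable (hK : IsNormalPM d K) (hj : 1 ≤ j) (hjd : j < d) :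
    Peelable d (sdAbove d j K) := by
  have hc := hK.card_facet
  intro R hRne hR
  classical
  -- a ridge whose missing vertex has the smallest level
  have hex : ∃ i, ∃ ρ ∈ R, ∃ τ C, IsFlag d j K τ C ∧ ∃ x ∈ fct τ C,
      ρ = (fct τ C).erase x ∧ max j x.card = i := by
    obtain ⟨ρ, hρ⟩ := hRne
    obtain ⟨hρc, S, hS, hρS⟩ := hR ρ hρ
    obtain ⟨x, hx, hxe⟩ := exists_erase hρS (by rw [hρc, sdAbove_card hj hS])
    obtain ⟨τ, C, h, hS'⟩ := mem_sdAbove.1 hS
    subst hS'
    exact ⟨max j x.card, ρ, hρ, τ, C, h, x, hx, hxe, rfl⟩
  obtain ⟨ρ, hρ, τ, C, h, x, hx, hρe, hxi⟩ := Nat.find_spec hex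
  have hmin : ∀ ρ' ∈ R, ∀ τ' C', IsFlag d j K τ' C' → ∀ x' ∈ fct τ' C',
      ρ' = (fct τ' C').erase x' → max j x.card ≤ max j x'.card := by
    intro ρ' hρ' τ' C' h' x' hx' he
    rw [hxi]
    exact Nat.find_min' hex ⟨ρ', hρ', τ', C', h', x', hx', he, rfl⟩
  subst hρe
  refine ⟨_, hρ, ?_⟩
  have hdR : ∀ ρ' ∈ R, ∃ τ' C', IsFlag d j K τ' C' ∧ ∃ v ∈ fct τ' C', ρ' = (fct τ' C').erase v := by
    intro ρ' hρ'
    obtain ⟨hρ'c, T, hT, hρ'T⟩ := hR ρ' hρ'
    obtain ⟨v, hv, hve⟩ := exists_erase hρ'T (by rw [hρ'c, sdAbove_card hj hT])
    obtain ⟨τ', C', h', hT'⟩ := mem_sdAbove.1 hT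
    subst hT'
    exact ⟨τ', C', h', v, hv, hve⟩
  -- only one face can be heavy
  have key : ∀ σ : Finset (Finset W), σ ⊆ (fct τ C).erase x → σ.card + 1 = d →
      Heavy (sdAbove d j K) R σ → ∃ y ∈ C, σ = ((fct τ C).erase x).erase y ∧
        (y.card = max j x.card + 1 ∨ (x.card = d + 1 ∧ y.card = d)) := by
    intro σ hσ hσc hheavy
    have hcx : ((fct τ C).erase x).card = d := by rw [card_erase_of_mem hx, h.card_fct hj]; rfl
    obtain ⟨y, hy, hye⟩ := exists_erase hσ (by rw [hσc, hcx])
    rw [mem_erase] at hy
    subst hye
    rcases mem_fct.1 hx with ⟨v, hv, rfl⟩ | hxC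
    · -- the missing vertex `x` is in the base
      rcases mem_fct.1 hy.2 with ⟨v', hv', rfl⟩ | hyC
      · exfalso
        have hvv : v ≠ v' := fun h1 => hy.1 (by rw [h1])
        have h3 := h.degree_base_base hc hj hjd.le hv hv' hvv
        have h4 := hheavy.1
        omega
      · by_cases hyc : y.card = j + 1
        · refine ⟨y, hyC, rfl, Or.inl ?_⟩
          rw [card_singleton]; omega
        · exfalso
          have h3 := h.degree_base_chain hK hj hjd.le hv hyC hyc
          have h4 := hheavy.1
          omega
    · -- the missing vertex `x` is in the chain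
      have hx1 := h.lt_card hxC
      have hx2 := (h.isFace hxC).card_le hc
      rcases mem_fct.1 hy.2 with ⟨v', hv', rfl⟩ | hyC
      · exfalso
        by_cases hxj : x.card = j + 1
        · -- few ridges
          obtain ⟨q, hq, hqc⟩ := h.exists_card hc (i := j + 2) (by omega) (by omega)
          have hqx : q ≠ x := by rintro rfl; omega
          have hqv : q ≠ {v'} := by rintro rfl; exact h.not_mem_chain hj v' hq
          have hsub : {ρ' | ρ' ∈ R ∧ ((fct τ C).erase x).erase {v'} ⊆ ρ'} ⊆
              (((q \ τ.erase v').image (fun u => fct (insert u (τ.erase v')) (C.erase x)) :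
                Finset (Finset (Finset W))) : Set (Finset (Finset W))) := by
            rintro ρ' ⟨hρ', hsρ'⟩
            obtain ⟨τ', C', h', v, hv, hve⟩ := hdR ρ' hρ'
            have hvmin := hmin ρ' hρ' τ' C' h' v hv hve
            have hsT : ((fct τ C).erase x).erase {v'} ⊆ fct τ' C' :=
              hsρ'.trans (by rw [hve]; exact erase_subset _ _)
            have hvj : j < v.card := by omega
            have hvC : v ∈ C' := (IsFlag.chain_mem (by omega)).1 hv
            have hCsub : ∀ s ∈ C, s ≠ x → s ∈ C' ∧ s ≠ v := by
              intro s hs hsx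
              have hs1 := h.lt_card hs
              have hsv' : s ≠ {v'} := by rintro rfl; exact h.not_mem_chain hj v' hs
              refine ⟨h.sub_chain hj hsT hs hsx hsv', ?_⟩
              have h5 : s ∈ ρ' := hsρ' (mem_erase.2 ⟨hsv', mem_erase.2 ⟨hsx,
                (IsFlag.chain_mem (by omega)).2 hs⟩⟩)
              rw [hve, mem_erase] at h5
              exact h5.1
            have hCe : C.erase x = C'.erase v := by
              apply eq_of_subset_of_card_le
              · intro s hs
                rw [mem_erase] at hs
                exact mem_erase.2 ⟨(hCsub s hs.2 hs.1).2, (hCsub s hs.2 hs.1).1⟩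
              · rw [card_erase_of_mem hxC, card_erase_of_mem hvC]
                have h1 := h.card
                have h2 := h'.card
                omega
            have hτsub : τ.erase v' ⊆ τ' := by
              intro w hw
              rw [mem_erase] at hw
              apply h.sub_base h' hj hsT hw.2
              · rintro rfl; exact h.not_mem_chain hj w hxC
              · exact fun h1 => hw.1 (singleton_inj.1 h1)
            obtain ⟨u, hu, hτe⟩ : ∃ u ∉ τ.erase v', τ' = insert u (τ.erase v') := by
              apply exists_insert hτsub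
              rw [card_erase_of_mem hv', h.base, h'.base]
              omega
            have hqC' : q ∈ C' := (hCsub q hq hqx).1
            have huq : u ∈ q := h'.base_subset hqC' (by rw [hτe]; exact mem_insert_self _ _)
            rw [mem_coe, mem_image]
            refine ⟨u, mem_sdiff.2 ⟨huq, hu⟩, ?_⟩
            rw [hve, ← hτe, hCe]
            ext s
            rw [mem_fct, mem_erase, mem_erase, mem_fct]
            constructor
            · rintro (⟨w, hw, rfl⟩ | ⟨h5, h6⟩)
              · refine ⟨?_, Or.inl ⟨w, hw, rfl⟩⟩
                rintro rfl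
                rw [card_singleton] at hvj
                omega
              · exact ⟨h5, Or.inr h6⟩
            · rintro ⟨h5, h6 | h6⟩
              · exact Or.inl h6
              · exact Or.inr ⟨h5, h6⟩
          have h4 := Set.ncard_le_ncard hsub (Finset.finite_toSet _)
          rw [Set.ncard_coe_finset] at h4
          have h5 : ((q \ τ.erase v').image
              (fun u => fct (insert u (τ.erase v')) (C.erase x))).card ≤ 3 := by
            refine card_image_le.trans ?_
            rw [card_sdiff_of_subset ((erase_subset _ _).trans (h.base_subset hq)),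
              card_erase_of_mem hv', h.base, hqc]
            omega
          have h6 := hheavy.2
          omega
        · have h3 := h.degree_base_chain hK hj hjd.le hv' hxC hxj
          rw [erase_right_comm] at h3
          have h4 := hheavy.1
          omega
      · have hy1 := h.lt_card hyC
        have hy2 := (h.isFace hyC).card_le hc
        by_cases h2 : y.card + 1 = x.card
        · by_cases hxd : x.card = d + 1
          · exact ⟨y, hyC, rfl, Or.inr ⟨hxd, by omega⟩⟩
          · exfalso
            -- few ridges
            obtain ⟨q, hq, hqc⟩ := h.exists_card hc (i := x.card + 1) (by omega) (by omega)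
            obtain ⟨p, hpc, hpy, hτp, hps, hpS⟩ := h.exists_pred hc hyC
            have hqx : q ≠ x := by rintro rfl; omega
            have hqy : q ≠ y := by rintro rfl; omega
            set D := (C.erase x).erase y with hD
            have hsub : {ρ' | ρ' ∈ R ∧ ((fct τ C).erase x).erase y ⊆ ρ'} ⊆
                (((q \ p).image (fun c => fct τ (insert (insert c p) D)) :
                  Finset (Finset (Finset W))) : Set (Finset (Finset W))) := by
              rintro ρ' ⟨hρ', hsρ'⟩
              obtain ⟨τ', C', h', v, hv, hve⟩ := hdR ρ' hρ'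
              have hvmin := hmin ρ' hρ' τ' C' h' v hv hve
              have hsT : ((fct τ C).erase x).erase y ⊆ fct τ' C' :=
                hsρ'.trans (by rw [hve]; exact erase_subset _ _)
              have hττ := h.base_eq h' hj hxC hyC hsT
              subst hττ
              have hDC : D ⊆ C' := by
                intro s hs
                rw [hD, mem_erase, mem_erase] at hs
                exact h.sub_chain hj hsT hs.2.2 hs.2.1 hs.1
              obtain ⟨z, w, hzc, hwc, hz, hw, hCe⟩ := h.two_missing hc h' hxC hyC hy.1.symm hDC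
              have hvj : j < v.card := by omega
              have hvC : v ∈ C' := (IsFlag.chain_mem (by omega)).1 hv
              have hzw : z ≠ w := by
                intro h4
                have : z.card = w.card := by rw [h4]
                omega
              have hzD : z ∉ D := by
                intro h4
                rw [hD, mem_erase, mem_erase] at h4
                exact h4.2.1 (h.eq h4.2.2 hxC hzc)
              have hwD : w ∉ D := by
                intro h4
                rw [hD, mem_erase, mem_erase] at h4
                exact h4.1 (h.eq h4.2.2 hyC hwc)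
              have hvz : v = z := by
                have hv2 := hvC
                rw [hCe, mem_insert, mem_insert] at hv2
                rcases hv2 with h4 | h4 | h4
                · exact h4
                · exfalso
                  rw [h4] at hvmin
                  omega
                · exfalso
                  have h5 := h4
                  rw [mem_erase, mem_erase] at h5
                  have h6 : v ∈ ρ' := hsρ' (mem_erase.2 ⟨h5.1, mem_erase.2 ⟨h5.2.1,
                    mem_fct.2 (Or.inr h5.2.2)⟩⟩)
                  rw [hve] at h6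
                  simp at h6
              have hpw : p ⊆ w := by
                rcases hpS with ⟨h4, -⟩ | hpS
                · rw [h4]; exact h'.base_subset hw
                · have hpD : p ∈ D :=
                    mem_erase.2 ⟨by rintro rfl; omega, mem_erase.2 ⟨by rintro rfl; omega, hpS⟩⟩
                  exact h'.subset (hDC hpD) hw (by omega)
              have hqD : q ∈ D := mem_erase.2 ⟨hqy, mem_erase.2 ⟨hqx, hq⟩⟩
              have hwq : w ⊆ q := h'.subset hw (hDC hqD) (by omega)
              obtain ⟨c, hcp, hce⟩ := exists_insert hpw (by omega)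
              rw [mem_coe, mem_image]
              refine ⟨c, ?_, ?_⟩
              · rw [mem_sdiff]
                refine ⟨hwq ?_, hcp⟩
                rw [hce]; exact mem_insert_self _ _
              · rw [← hce, hve, hvz]
                ext s
                rw [mem_fct, mem_erase, mem_fct, hCe, mem_insert, mem_insert, mem_insert]
                constructor
                · rintro (⟨u, hu, rfl⟩ | h5)
                  · refine ⟨?_, Or.inl ⟨u, hu, rfl⟩⟩
                    intro h6
                    rw [← h6, card_singleton] at hzc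
                    omega
                  · refine ⟨?_, Or.inr (Or.inr h5)⟩
                    rintro rfl
                    rcases h5 with h5 | h5
                    · exact hzw h5
                    · exact hzD h5
                · rintro ⟨h5, h6 | h6 | h6⟩
                  · exact Or.inl h6
                  · exact absurd h6 h5
                  · exact Or.inr h6
            have h4 := Set.ncard_le_ncard hsub (Finset.finite_toSet _)
            rw [Set.ncard_coe_finset] at h4
            have h5 : ((q \ p).image (fun c => fct τ (insert (insert c p) D))).card ≤ 3 := by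
              refine card_image_le.trans ?_
              rw [card_sdiff_of_subset (hpy.trans (h.subset hyC hq (by omega)))]
              omega
            have h6 := hheavy.2
            omega
        · by_cases h1 : y.card = x.card + 1
          · refine ⟨y, hyC, rfl, Or.inl ?_⟩
            omega
          · exfalso
            have h3 := h.degree_chain_chain hK hj hxC hyC hy.1.symm h1 h2
            have h4 := hheavy.1
            omega
  intro σ σ' hσ hσ' hσc hσ'c hh hh'
  obtain ⟨y, hy, hye, hyc⟩ := key σ hσ hσc hh
  obtain ⟨y', hy', hye', hyc'⟩ := key σ' hσ' hσ'c hh'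
  have hyS := (h.isFace hy).card_le hc
  have hyS' := (h.isFace hy').card_le hc
  have : y = y' := h.eq hy hy' (by omega)
  rw [hye, hye', this]

end DualGraph
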