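import Pool.Agent.DualGraph.Parity

/-!
# Closed walks with few turns, and short induced closed walks
-/

namespace DualGraph

open Finset

variable {V : Type*} [DecidableEq V]

namespace Walk

variable {Δ : Set (Finset V)} {m : ℕ} {G : ℕ → Finset V} {u e : ℕ → V} {d : ℕ}

theorem ridge_inj (h : Walk Δ m G u e) (hΔ : IsPM d Δ) (hm : 3 ≤ m) {a b : ℕ} (ha : a < m)
    (hb : b < m) (hab : (G a).erase (u a) = (G b).erase (u b)) : a = b := by
  by_contra hne
  have hsub : ∀ k, (G k).erase (u k) ⊆ G (k + 1) := by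
    intro k; rw [h.step k]; exact subset_insert _ _
  have hneq : ∀ k, G (k + 1) ≠ G k := by
    intro k hk
    apply h.enter_not_mem k
    rw [← hk]; exact h.enter_mem _
  obtain ⟨B, -, hB⟩ := hΔ.ridge (G a) (h.mem a) _ (erase_subset _ _) (h.card_ridge hΔ.card_facet a)
  have h1 : G (a + 1) = B := hB _ ⟨h.mem _, hneq a, hsub a⟩
  have h2 : G b = B := by
    apply hB
    refine ⟨h.mem _, ?_, ?_⟩
    · intro h3; exact hne (h.inj _ ha _ hb h3.symm)
    · rw [hab]; exact erase_subset _ _
  have h3 : G (b + 1) = G a := by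
    by_contra h4
    have h5 : G (b + 1) = B := hB _ ⟨h.mem _, h4, by rw [hab]; exact hsub b⟩
    exact hneq b (h5.trans h2.symm)
  have h4 := h.eq_mod_of_eq (by omega) (h2.trans h1.symm)
  have h5 := h.eq_mod_of_eq (by omega) h3
  have h6 : (a + 2) % m = a % m := by
    rw [← h5]
    have : (a + 1 + 1) ≡ b + 1 [MOD m] := Nat.ModEq.add_right 1 h4.symm
    exact this
  have h7 : m ∣ 2 := by
    have h8 : a ≡ a + 2 [MOD m] := h6.symm
    have h9 := (Nat.modEq_iff_dvd' (by omega : a ≤ a + 2)).1 h8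
    simpa using h9
  have := Nat.le_of_dvd (by norm_num) h7
  omega

theorem pivot_const (h : Walk Δ m G u e) {s t : ℕ} (hst : s ≤ t)
    (hk : ∀ k, s ≤ k → k < t → u (k + 1) = e k) : pivot G u e t = pivot G u e s := by
  induction t, hst using Nat.le_induction with
  | base => rfl
  | succ t hst ih =>
    rw [(h.pivot_eq_iff t).2 (hk t hst (Nat.lt_succ_self t))]
    exact ih (fun k h1 h2 => hk k h1 (by omega))

/-- A closed walk without repetitions in an orientable pseudomanifold turns never or at least four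
times. -/
theorem four_le (h : Walk Δ m G u e) (hΔ : IsPM d Δ) (ho : Orientable d Δ) (hm : 3 ≤ m)
    (h0 : u 1 ≠ e 0) : 4 ≤ ((range m).filter (fun k => u (k + 1) ≠ e k)).card := by
  have hd := hΔ.card_facet
  set M := (range m).filter (fun k => u (k + 1) ≠ e k) with hM
  have h0M : 0 ∈ M := by
    rw [hM, mem_filter, mem_range]
    exact ⟨by omega, h0⟩
  have hMk : ∀ k, k < m → k ∉ M → u (k + 1) = e k := by
    intro k hk hkM
    by_contra hne
    exact hkM (by rw [hM, mem_filter, mem_range]; exact ⟨hk, hne⟩)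
  have hMk' : ∀ k, k ∈ M → k < m ∧ pivot G u e (k + 1) ≠ pivot G u e k := by
    intro k hk
    rw [hM, mem_filter, mem_range] at hk
    exact ⟨hk.1, fun h1 => hk.2 ((h.pivot_eq_iff k).1 h1)⟩
  have hper : pivot G u e m = pivot G u e 0 := by
    rw [h.pivot_mod m, Nat.mod_self]
  by_contra hlt
  push Not at hlt
  have hcard : (M.erase 0).card + 1 = M.card := card_erase_add_one h0M
  have h00 := (hMk' 0 h0M).2
  rw [zero_add] at h00
  have hr0 := h.union_pivot hd 0 h00
  rw [zero_add] at hr0
  have hcases : (M.erase 0).card = 0 ∨ (M.erase 0).card = 1 ∨ (M.erase 0).card = 2 := by omega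
  rcases hcases with hc | hc | hc
  · rw [card_eq_zero] at hc
    have h1 : pivot G u e m = pivot G u e 1 := by
      apply h.pivot_const (by omega)
      intro k hk1 hk2
      apply hMk k hk2
      intro hkM
      have : k ∈ M.erase 0 := mem_erase.2 ⟨by omega, hkM⟩
      rw [hc] at this
      simp at this
    exact h00 (h1.symm.trans hper)
  · obtain ⟨b, hb⟩ := card_eq_one.1 hc
    have hbM : b ∈ M.erase 0 := by rw [hb]; simp
    rw [mem_erase] at hbM
    obtain ⟨hb0, hbM⟩ := hbM
    obtain ⟨hbm, hbp⟩ := hMk' b hbM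
    have hnot : ∀ k, k ≠ 0 → k ≠ b → k ∉ M := by
      intro k hk0 hkb hkM
      have : k ∈ M.erase 0 := mem_erase.2 ⟨hk0, hkM⟩
      rw [hb, mem_singleton] at this
      exact hkb this
    have h1 : pivot G u e b = pivot G u e 1 := by
      apply h.pivot_const (by omega)
      intro k hk1 hk2
      exact hMk k (by omega) (hnot k (by omega) (by omega))
    have h2 : pivot G u e m = pivot G u e (b + 1) := by
      apply h.pivot_const (by omega)
      intro k hk1 hk2
      exact hMk k (by omega) (hnot k (by omega) (by omega))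
    have hrb := h.union_pivot hd b hbp
    rw [h1, ← h2, hper, union_comm, hr0] at hrb
    exact hb0 (h.ridge_inj hΔ hm (by omega) hbm hrb).symm
  · obtain ⟨b, c, hbc, hbce⟩ := card_eq_two.1 hc
    wlog hlt' : b < c generalizing b c with hw
    · exact hw c b hbc.symm (by rw [hbce]; exact pair_comm _ _) (by omega)
    have hbM : b ∈ M.erase 0 := by rw [hbce]; simp
    have hcM : c ∈ M.erase 0 := by rw [hbce]; simp
    rw [mem_erase] at hbM hcM
    obtain ⟨hb0, hbM⟩ := hbM
    obtain ⟨hc0, hcM⟩ := hcM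
    obtain ⟨hbm, hbp⟩ := hMk' b hbM
    obtain ⟨hcm, hcp⟩ := hMk' c hcM
    have hnot : ∀ k, k ≠ 0 → k ≠ b → k ≠ c → k ∉ M := by
      intro k hk0 hkb hkc hkM
      have : k ∈ M.erase 0 := mem_erase.2 ⟨hk0, hkM⟩
      rw [hbce, mem_insert, mem_singleton] at this
      rcases this with h1 | h1
      · exact hkb h1
      · exact hkc h1
    have h1 : ∀ k, 1 ≤ k → k ≤ b → pivot G u e k = pivot G u e 1 := by
      intro k hk1 hk2
      apply h.pivot_const hk1
      intro k' hk1' hk2'
      exact hMk k' (by omega) (hnot k' (by omega) (by omega) (by omega))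
    have h2 : ∀ k, b + 1 ≤ k → k ≤ c → pivot G u e k = pivot G u e (b + 1) := by
      intro k hk1 hk2
      apply h.pivot_const hk1
      intro k' hk1' hk2'
      exact hMk k' (by omega) (hnot k' (by omega) (by omega) (by omega))
    have h3 : ∀ k, c + 1 ≤ k → k ≤ m → pivot G u e k = pivot G u e (c + 1) := by
      intro k hk1 hk2
      apply h.pivot_const hk1
      intro k' hk1' hk2'
      exact hMk k' (by omega) (hnot k' (by omega) (by omega) (by omega))
    have h3' : pivot G u e (c + 1) = pivot G u e 0 := by rw [← h3 m (by omega) le_rfl, hper]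
    have hrb := h.union_pivot hd b hbp
    have hrc := h.union_pivot hd c hcp
    rw [h1 b (by omega) le_rfl] at hrb
    rw [h2 c (by omega) le_rfl, h3'] at hrc
    set α := pivot G u e 0 with hα
    set β := pivot G u e 1 with hβ
    set γ := pivot G u e (b + 1) with hγ
    have cα := h.card_pivot hd 0
    have cβ := h.card_pivot hd 1
    have cγ := h.card_pivot hd (b + 1)
    rw [← hα] at cα
    rw [← hβ] at cβ
    rw [← hγ] at cγ
    have ne_bc : β ∪ γ ≠ γ ∪ α := by
      rw [hrb, hrc]
      intro h4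
      exact hbc (h.ridge_inj hΔ hm hbm hcm h4)
    have c0 : (α ∪ β).card = d := by rw [hr0]; exact h.card_ridge hd 0
    have cb : (β ∪ γ).card = d := by rw [hrb]; exact h.card_ridge hd b
    have cc : (γ ∪ α).card = d := by rw [hrc]; exact h.card_ridge hd c
    have hγeq : γ = (β ∪ γ) ∩ (γ ∪ α) := by
      apply eq_of_subset_of_card_le
      · exact subset_inter subset_union_right subset_union_left
      · by_contra h4
        push Not at h4
        have h5 : (β ∪ γ) ∩ (γ ∪ α) = β ∪ γ :=
          eq_of_subset_of_card_le inter_subset_left (by omega)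
        have h6 : (β ∪ γ) ∩ (γ ∪ α) = γ ∪ α :=
          eq_of_subset_of_card_le inter_subset_right (by omega)
        exact ne_bc (h5.symm.trans h6)
    have hκγ : α ∩ β ⊆ γ := by
      rw [hγeq]
      intro x hx
      rw [mem_inter] at hx
      simp [hx.1, hx.2]
    have hcκ : (α ∩ β).card + 3 = d + 1 := by
      have := card_union_add_card_inter α β
      omega
    have hall : ∀ k, α ∩ β ⊆ pivot G u e k := by
      intro k
      rw [h.pivot_mod k]
      have hkm := Nat.mod_lt k (show 0 < m by omega)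
      set k' := k % m
      rcases Nat.eq_zero_or_pos k' with hk | hk
      · rw [hk]; exact inter_subset_left
      · by_cases hkb : k' ≤ b
        · rw [h1 k' hk hkb]; exact inter_subset_right
        · by_cases hkc : k' ≤ c
          · rw [h2 k' (by omega) hkc]; exact hκγ
          · rw [h3 k' (by omega) (by omega), h3']; exact inter_subset_left
    have hpar := h.parity hd ho (α ∩ β) hcκ hall
    rw [← hM] at hpar
    have : M.card = 3 := by omega
    rw [this] at hpar
    exact absurd hpar (by decide)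

/-- The facets two steps apart in an induced closed walk. -/
theorem enter_ne_exit (h : Walk Δ m G u e) (hd : ∀ A ∈ Δ, A.card = d + 1) (k : ℕ)
    (hk : (G k ∩ G (k + 2)).card ≠ d) : e (k + 2) ≠ u k := by
  intro h1
  apply hk
  have n1 := h.enter_not_mem k
  have z1 := h.exit_ne (k + 1)
  have x1 := h.exit_next_mem k
  have h2 : G k ∩ G (k + 2) = (G k).erase (u (k + 1)) := by
    ext x
    rw [h.step (k + 1), h.step k, h1]
    simp only [mem_inter, mem_insert, mem_erase]
    constructor
    · rintro ⟨h3, h4 | ⟨h4, h5 | ⟨h5, h6⟩⟩⟩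
      · subst h4
        exact ⟨(ne_of_mem_erase x1).symm, h3⟩
      · exact ⟨h4, h3⟩
      · exact ⟨h4, h3⟩
    · rintro ⟨h3, h4⟩
      refine ⟨h4, ?_⟩
      by_cases h5 : x = u k
      · exact Or.inl h5
      · exact Or.inr ⟨h3, Or.inr ⟨h5, h4⟩⟩
  rw [h2, card_erase_of_mem (mem_of_mem_erase x1), hd _ (h.mem k)]
  rfl

theorem mem_next (h : Walk Δ m G u e) (k : ℕ) (x : V) :
    x ∈ G (k + 1) ↔ x = e (k + 1) ∨ (x ≠ u k ∧ x ∈ G k) := by
  rw [h.step k, mem_insert, mem_erase]

/-- An induced closed walk of length four never turns. -/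
theorem not_turn_four (h : Walk Δ 4 G u e) (hd : ∀ A ∈ Δ, A.card = d + 1)
    (h02 : (G 0 ∩ G 2).card ≠ d) : u 1 = e 0 := by
  by_contra hne
  have s0 := h.mem_next 0
  have s1 := h.mem_next 1
  have s2 := h.mem_next 2
  have s3 := h.mem_next 3
  have p4 : G 4 = G 0 := h.perG 0
  have pe4 : e 4 = e 0 := h.pere 0
  norm_num at s0 s1 s2 s3
  rw [p4, pe4] at s3
  have n0 := h.enter_not_mem 0
  have n1 := h.enter_not_mem 1
  have n2 := h.enter_not_mem 2
  have n3 := h.enter_not_mem 3
  norm_num at n0 n1 n2 n3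
  rw [pe4] at n3
  have x0 := h.exit_mem 0
  have x1 := h.exit_mem 1
  have y0 := h.enter_mem 0
  have z0 := h.exit_ne 0
  have z1 := h.exit_ne 1
  have w0 : e 2 ≠ u 0 := h.enter_ne_exit hd 0 h02
  have a1 : e 0 ∈ G 1 := (s0 _).2 (Or.inr ⟨z0.symm, y0⟩)
  have a2 : e 0 ∈ G 2 := (s1 _).2 (Or.inr ⟨fun h => hne h.symm, a1⟩)
  have a3 : u 2 = e 0 := by
    by_contra h1
    exact n3 ((s2 _).2 (Or.inr ⟨fun h => h1 h.symm, a2⟩))
  have b1 : u 0 ∉ G 1 := by
    intro h1
    rcases (s0 _).1 h1 with h2 | h2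
    · rw [h2] at x0; exact n0 x0
    · exact h2.1 rfl
  have b2 : u 0 ∉ G 2 := by
    intro h1
    rcases (s1 _).1 h1 with h2 | h2
    · exact w0 h2.symm
    · exact b1 h2.2
  have b3 : u 0 ∈ G 3 := by
    rcases (s3 _).1 x0 with h2 | h2
    · exact absurd h2 z0
    · exact h2.2
  have b4 : e 3 = u 0 := by
    rcases (s2 _).1 b3 with h2 | h2
    · exact h2.symm
    · exact absurd h2.2 b2
  have c0 : u 1 ∈ G 0 ∧ u 1 ≠ u 0 := by
    rcases (s0 _).1 x1 with h2 | h2
    · exact absurd h2 z1
    · exact ⟨h2.2, h2.1⟩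
  have c1 : u 1 ∉ G 2 := by
    intro h1
    rcases (s1 _).1 h1 with h2 | h2
    · rw [h2] at x1; exact n1 x1
    · exact h2.1 rfl
  have c2 : u 1 ∈ G 3 := by
    rcases (s3 _).1 c0.1 with h2 | h2
    · exact absurd h2 hne
    · exact h2.2
  rcases (s2 _).1 c2 with h2 | h2
  · exact c0.2 (h2.trans b4)
  · exact c1 h2.2

/-- A turn in an induced closed walk of length five is followed by a turn. -/
theorem turn_next_five (h : Walk Δ 5 G u e) (hd : ∀ A ∈ Δ, A.card = d + 1)
    (hind : ∀ k, (G k ∩ G (k + 2)).card ≠ d) (h0 : u 1 ≠ e 0) :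
    u 2 = e 0 ∧ u 2 ≠ e 1 := by
  have s1 := h.mem_next 1
  have s2 := h.mem_next 2
  have s3 := h.mem_next 3
  have s4 := h.mem_next 4
  have p5 : G 5 = G 0 := h.perG 0
  have pe5 : e 5 = e 0 := h.pere 0
  norm_num at s1 s2 s3 s4
  rw [p5, pe5] at s4
  have n0 := h.enter_not_mem 0
  have n4 := h.enter_not_mem 4
  norm_num at n0 n4
  rw [pe5] at n4
  have y0 := h.enter_mem 0
  have z0 := h.exit_ne 0
  have w3 : e 5 ≠ u 3 := h.enter_ne_exit hd 3 (hind 3)
  rw [pe5] at w3
  have a1 : e 0 ∈ G 1 := (h.mem_next 0 _).2 (Or.inr ⟨z0.symm, y0⟩)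
  have a2 : e 0 ∈ G 2 := (s1 _).2 (Or.inr ⟨fun h => h0 h.symm, a1⟩)
  have a3 : e 0 ∉ G 3 := by
    intro h1
    exact n4 ((s3 _).2 (Or.inr ⟨w3, h1⟩))
  have a4 : u 2 = e 0 := by
    by_contra h1
    exact a3 ((s2 _).2 (Or.inr ⟨fun h => h1 h.symm, a2⟩))
  refine ⟨a4, ?_⟩
  rw [a4]
  intro h1
  rw [h1] at y0
  exact n0 y0

/-- An induced closed walk of length five in an orientable pseudomanifold never turns. -/
theorem not_turn_five (h : Walk Δ 5 G u e) (hd : ∀ A ∈ Δ, A.card = d + 1) (ho : Orientable d Δ)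
    (hind : ∀ k, (G k ∩ G (k + 2)).card ≠ d) : u 1 = e 0 := by
  by_contra h0
  -- all steps turn
  have all : ∀ k, u (k + 1) ≠ e k ∧ u (k + 2) = e k := by
    intro k
    induction k with
    | zero => exact ⟨h0, (h.turn_next_five hd hind h0).1⟩
    | succ k ih =>
      have h1 := (h.shift k).turn_next_five hd (fun j => by
        have := hind (j + k)
        rwa [show j + k + 2 = j + 2 + k by ring] at this) (by
          simpa [add_comm] using ih.1)
      have h2 : u (k + 1 + 1) ≠ e (k + 1) := by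
        have := h1.2
        simpa [add_comm, add_left_comm, add_assoc] using this
      refine ⟨h2, ?_⟩
      have h3 := (h.shift (k + 1)).turn_next_five hd (fun j => by
        have := hind (j + (k + 1))
        rwa [show j + (k + 1) + 2 = j + 2 + (k + 1) by ring] at this) (by
          simpa [add_comm, add_left_comm, add_assoc] using h2)
      have := h3.1
      simpa [add_comm, add_left_comm, add_assoc] using this
  have hM : (range 5).filter (fun k => u (k + 1) ≠ e k) = range 5 := by
    apply filter_true_of_mem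
    intro k _
    exact (all k).1
  have hp5 : ∀ k, u (k + 5) = u k := h.peru
  have hq5 : ∀ k, e (k + 5) = e k := h.pere
  have hG5 : ∀ k, G (k + 5) = G k := h.perG
  -- the common face
  have m1 : ∀ k, e k ∈ G k ∧ e k ∈ G (k + 1) ∧ e k ∈ G (k + 2) := by
    intro k
    have b1 : e k ∈ G (k + 1) :=
      (h.mem_next k _).2 (Or.inr ⟨(h.exit_ne k).symm, h.enter_mem k⟩)
    have b2 : e k ∈ G (k + 2) :=
      (h.mem_next (k + 1) _).2 (Or.inr ⟨fun h1 => (all k).1 h1.symm, b1⟩)
    exact ⟨h.enter_mem k, b1, b2⟩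
  have hcomm : ∀ k x, x ∈ G k → x ≠ e k → x ≠ e (k + 3) → x ≠ e (k + 4) → ∀ j,
      x ∈ G (k + j) ∧ x ≠ e (k + j) := by
    intro k x hx hx0 hx3 hx4
    have u0 : u k = e (k + 3) := by
      have := (all (k + 3)).2
      rw [show k + 3 + 2 = k + 5 by ring, hp5] at this
      exact this
    have u1 : u (k + 1) = e (k + 4) := by
      have := (all (k + 4)).2
      rw [show k + 4 + 2 = k + 1 + 5 by ring, hp5] at this
      exact this
    have u2 : u (k + 2) = e k := (all k).2
    have u3 : u (k + 3) = e (k + 1) := (all (k + 1)).2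
    have u4 : u (k + 4) = e (k + 2) := (all (k + 2)).2
    have g1 : x ∈ G (k + 1) := (h.mem_next k _).2 (Or.inr ⟨by rw [u0]; exact hx3, hx⟩)
    have g2 : x ∈ G (k + 2) := (h.mem_next (k + 1) _).2 (Or.inr ⟨by rw [u1]; exact hx4, g1⟩)
    have g3 : x ∈ G (k + 3) := (h.mem_next (k + 2) _).2 (Or.inr ⟨by rw [u2]; exact hx0, g2⟩)
    have x1 : x ≠ e (k + 1) := by
      intro h1
      apply h.enter_not_mem k
      rw [← h1]; exact hx
    have x2 : x ≠ e (k + 2) := by
      intro h1
      apply h.enter_not_mem (k + 1)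
      rw [← h1]; exact g1
    have g4 : x ∈ G (k + 4) := (h.mem_next (k + 3) _).2 (Or.inr ⟨by rw [u3]; exact x1, g3⟩)
    intro j
    have hj : ∃ r < 5, G (k + j) = G (k + r) ∧ e (k + j) = e (k + r) := by
      induction j using Nat.strong_induction_on with
      | _ j ih =>
        by_cases hj : j < 5
        · exact ⟨j, hj, rfl, rfl⟩
        · obtain ⟨r, hr, h1, h2⟩ := ih (j - 5) (by omega)
          refine ⟨r, hr, ?_, ?_⟩
          · rw [← h1, ← hG5 (k + (j - 5))]
            congr 1; omega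
          · rw [← h2, ← hq5 (k + (j - 5))]
            congr 1; omega
    obtain ⟨r, hr, h1, h2⟩ := hj
    rw [h1, h2]
    have hr' : r = 0 ∨ r = 1 ∨ r = 2 ∨ r = 3 ∨ r = 4 := by omega
    rcases hr' with rfl | rfl | rfl | rfl | rfl
    · exact ⟨hx, hx0⟩
    · exact ⟨g1, x1⟩
    · exact ⟨g2, x2⟩
    · exact ⟨g3, hx3⟩
    · exact ⟨g4, hx4⟩
  -- the three vertices to be removed
  have e0 : e 0 ∈ G 0 := h.enter_mem 0
  have e4 : e 4 ∈ G 0 := by
    have := (m1 4).2.1
    rw [show 4 + 1 = 0 + 5 by norm_num, hG5] at this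
    exact this
  have e3 : e 3 ∈ G 0 := by
    have := (m1 3).2.2
    rw [show 3 + 2 = 0 + 5 by norm_num, hG5] at this
    exact this
  have e34 : e 4 ≠ e 3 := by
    intro h1
    apply h.enter_not_mem 3
    show e 4 ∈ G 3
    rw [h1]; exact h.enter_mem 3
  have e04 : e 0 ≠ e 4 := by
    intro h1
    apply h.enter_not_mem 4
    show e 5 ∈ G 4
    rw [show 5 = 0 + 5 by norm_num, hq5, h1]; exact h.enter_mem 4
  have e03 : e 0 ≠ e 3 := by
    intro h1
    apply h.enter_not_mem 4
    show e 5 ∈ G 4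
    rw [show 5 = 0 + 5 by norm_num, hq5, h1]; exact (m1 3).2.1
  set κ := (((G 0).erase (e 0)).erase (e 3)).erase (e 4) with hκ
  have c1 : ((G 0).erase (e 0)).card + 1 = d + 1 := by
    rw [card_erase_add_one e0, hd _ (h.mem 0)]
  have c2 : (((G 0).erase (e 0)).erase (e 3)).card + 1 = ((G 0).erase (e 0)).card :=
    card_erase_add_one (mem_erase.2 ⟨e03.symm, e3⟩)
  have c3 : κ.card + 1 = (((G 0).erase (e 0)).erase (e 3)).card :=
    card_erase_add_one (mem_erase.2 ⟨e34, mem_erase.2 ⟨e04.symm, e4⟩⟩)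
  have hpar := h.parity hd ho κ (by omega) (by
    intro k x hx
    rw [hκ, mem_erase, mem_erase, mem_erase] at hx
    obtain ⟨hx4, hx3, hx0, hx⟩ := hx
    have key := hcomm 0 x hx hx0 hx3 hx4
    simp only [zero_add] at key
    unfold pivot
    rw [mem_erase, mem_erase]
    refine ⟨(key k).2, ?_, (key k).1⟩
    intro h1
    have h2 := (key (k + 1)).1
    rcases (h.mem_next k _).1 h2 with h3 | h3
    · exact (key (k + 1)).2 h3
    · exact h3.1 h1)
  rw [hM, card_range] at hpar
  exact absurd hpar (by decide)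

end Walk

end DualGraph
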