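import Pool.Agent.DualGraph.Defs

/-!
# Closed walks of facets

A closed walk of facets in which every two consecutive facets share a ridge.  The pivot at a facet
of the walk is the intersection of the two ridges through which the walk passes.  In an orientable
pseudomanifold the pivot of a closed walk without repetitions changes either never or at least four
times, and it never changes in an induced closed walk of length four or five.
-/

namespace DualGraph

open Finset

variable {V : Type*} [DecidableEq V]

/-- A closed walk of length `m` of facets `G k`; the walk leaves `G k` through the ridge opposite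
to `u k`, and it entered `G k` through the ridge opposite to `e k`. -/
structure Walk (Δ : Set (Finset V)) (m : ℕ) (G : ℕ → Finset V) (u e : ℕ → V) : Prop where
  mem : ∀ k, G k ∈ Δ
  exit_mem : ∀ k, u k ∈ G k
  enter_mem : ∀ k, e k ∈ G k
  enter_not_mem : ∀ k, e (k + 1) ∉ G k
  step : ∀ k, G (k + 1) = insert (e (k + 1)) ((G k).erase (u k))
  exit_ne : ∀ k, u k ≠ e k
  perG : ∀ k, G (k + m) = G k
  peru : ∀ k, u (k + m) = u k
  pere : ∀ k, e (k + m) = e k
  inj : ∀ i < m, ∀ j < m, G i = G j → i = j

/-- The pivot of the walk at step `k`. -/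
def pivot (G : ℕ → Finset V) (u e : ℕ → V) (k : ℕ) : Finset V := ((G k).erase (u k)).erase (e k)

namespace Walk

variable {Δ : Set (Finset V)} {m : ℕ} {G : ℕ → Finset V} {u e : ℕ → V} {d : ℕ}

theorem shift (h : Walk Δ m G u e) (a : ℕ) :
    Walk Δ m (fun k => G (k + a)) (fun k => u (k + a)) (fun k => e (k + a)) where
  mem k := h.mem _
  exit_mem k := h.exit_mem _
  enter_mem k := h.enter_mem _
  enter_not_mem k := by
    have := h.enter_not_mem (k + a)
    rwa [show k + 1 + a = k + a + 1 by ring]
  step k := by
    have := h.step (k + a)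
    rwa [show k + 1 + a = k + a + 1 by ring]
  exit_ne k := h.exit_ne _
  perG k := by rw [show k + m + a = k + a + m by ring]; exact h.perG _
  peru k := by rw [show k + m + a = k + a + m by ring]; exact h.peru _
  pere k := by rw [show k + m + a = k + a + m by ring]; exact h.pere _
  inj i hi j hj hij := by
    have per : ∀ n k, G (k + n * m) = G k := by
      intro n
      induction n with
      | zero => intro k; simp
      | succ n ih => intro k; rw [show k + (n + 1) * m = (k + n * m) + m by ring, h.perG, ih]
    have key : ∀ k, G k = G (k % m) := by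
      intro k
      conv_lhs => rw [← Nat.mod_add_div k m, Nat.mul_comm]
      exact per _ _
    have hm : 0 < m := by omega
    have h1 : (i + a) % m = (j + a) % m := by
      apply h.inj _ (Nat.mod_lt _ hm) _ (Nat.mod_lt _ hm)
      rw [← key, ← key]; exact hij
    have h2 : i ≡ j [MOD m] := Nat.ModEq.add_right_cancel' a h1
    have h3 := h2
    unfold Nat.ModEq at h3
    rwa [Nat.mod_eq_of_lt hi, Nat.mod_eq_of_lt hj] at h3

theorem per_mod (h : Walk Δ m G u e) (k : ℕ) :
    G k = G (k % m) ∧ u k = u (k % m) ∧ e k = e (k % m) := by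
  have perG : ∀ n k, G (k + n * m) = G k := by
    intro n
    induction n with
    | zero => intro k; simp
    | succ n ih => intro k; rw [show k + (n + 1) * m = (k + n * m) + m by ring, h.perG, ih]
  have peru : ∀ n k, u (k + n * m) = u k := by
    intro n
    induction n with
    | zero => intro k; simp
    | succ n ih => intro k; rw [show k + (n + 1) * m = (k + n * m) + m by ring, h.peru, ih]
  have pere : ∀ n k, e (k + n * m) = e k := by
    intro n
    induction n with
    | zero => intro k; simp
    | succ n ih => intro k; rw [show k + (n + 1) * m = (k + n * m) + m by ring, h.pere, ih]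
  refine ⟨?_, ?_, ?_⟩
  · conv_lhs => rw [← Nat.mod_add_div k m, Nat.mul_comm]
    exact perG _ _
  · conv_lhs => rw [← Nat.mod_add_div k m, Nat.mul_comm]
    exact peru _ _
  · conv_lhs => rw [← Nat.mod_add_div k m, Nat.mul_comm]
    exact pere _ _

theorem pivot_mod (h : Walk Δ m G u e) (k : ℕ) : pivot G u e k = pivot G u e (k % m) := by
  obtain ⟨h1, h2, h3⟩ := h.per_mod k
  unfold pivot
  rw [h1, h2, h3]

theorem eq_mod_of_eq (h : Walk Δ m G u e) (hm : 0 < m) {i j : ℕ} (hij : G i = G j) :
    i % m = j % m := by
  apply h.inj _ (Nat.mod_lt _ hm) _ (Nat.mod_lt _ hm)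
  rw [← (h.per_mod i).1, ← (h.per_mod j).1]; exact hij

theorem exit_next_mem (h : Walk Δ m G u e) (k : ℕ) : u (k + 1) ∈ (G k).erase (u k) := by
  have h1 := h.exit_mem (k + 1)
  rw [h.step k, mem_insert] at h1
  rcases h1 with h1 | h1
  · exact absurd h1 (h.exit_ne (k + 1))
  · exact h1

theorem pivot_next (h : Walk Δ m G u e) (k : ℕ) :
    pivot G u e (k + 1) = ((G k).erase (u k)).erase (u (k + 1)) := by
  unfold pivot
  rw [h.step k]
  ext x
  have h1 := h.enter_not_mem k
  simp only [mem_erase, mem_insert]
  constructor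
  · rintro ⟨h2, h3, h4 | h4⟩
    · exact absurd h4 h2
    · exact ⟨h3, h4⟩
  · rintro ⟨h2, h3, h4⟩
    refine ⟨?_, h2, Or.inr ⟨h3, h4⟩⟩
    rintro rfl
    exact h1 h4

theorem enter_mem_ridge (h : Walk Δ m G u e) (k : ℕ) : e k ∈ (G k).erase (u k) :=
  mem_erase.2 ⟨(h.exit_ne k).symm, h.enter_mem k⟩

theorem pivot_eq_iff (h : Walk Δ m G u e) (k : ℕ) :
    pivot G u e (k + 1) = pivot G u e k ↔ u (k + 1) = e k := by
  rw [h.pivot_next k]
  constructor
  · intro h1
    by_contra h2
    have h3 : e k ∈ ((G k).erase (u k)).erase (u (k + 1)) :=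
      mem_erase.2 ⟨fun h4 => h2 h4.symm, h.enter_mem_ridge k⟩
    rw [h1] at h3
    simp [pivot] at h3
  · intro h1
    rw [h1]; rfl

theorem card_ridge (h : Walk Δ m G u e) (hd : ∀ A ∈ Δ, A.card = d + 1) (k : ℕ) :
    ((G k).erase (u k)).card = d := by
  rw [card_erase_of_mem (h.exit_mem k), hd _ (h.mem k)]; rfl

theorem card_pivot (h : Walk Δ m G u e) (hd : ∀ A ∈ Δ, A.card = d + 1) (k : ℕ) :
    (pivot G u e k).card + 1 = d := by
  unfold pivot
  rw [card_erase_add_one (h.enter_mem_ridge k), h.card_ridge hd]

theorem pivot_subset_ridge (k : ℕ) : pivot G u e k ⊆ (G k).erase (u k) :=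
  erase_subset _ _

theorem pivot_next_subset_ridge (h : Walk Δ m G u e) (k : ℕ) :
    pivot G u e (k + 1) ⊆ (G k).erase (u k) := by
  rw [h.pivot_next]; exact erase_subset _ _

theorem union_pivot (h : Walk Δ m G u e) (hd : ∀ A ∈ Δ, A.card = d + 1) (k : ℕ)
    (hk : pivot G u e (k + 1) ≠ pivot G u e k) :
    pivot G u e k ∪ pivot G u e (k + 1) = (G k).erase (u k) := by
  apply eq_of_subset_of_card_le
  · exact union_subset (pivot_subset_ridge k) (h.pivot_next_subset_ridge k)
  · rw [h.card_ridge hd]
    by_contra hlt
    push_neg at hlt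
    have h1 := h.card_pivot hd k
    have h2 := h.card_pivot hd (k + 1)
    have h3 : pivot G u e k = pivot G u e k ∪ pivot G u e (k + 1) :=
      eq_of_subset_of_card_le subset_union_left (by omega)
    have h4 : pivot G u e (k + 1) = pivot G u e k ∪ pivot G u e (k + 1) :=
      eq_of_subset_of_card_le subset_union_right (by omega)
    exact hk (h4.trans h3.symm)

end Walk

end DualGraph
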